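import Pool.Agent.Lib.MP_0ffb5f_gt.Transfer

set_option autoImplicit false
open MeasureTheory Set ENNReal ProbabilityTheory
open scoped Pointwise

namespace Pool.Agent.VB

variable {E : Type*} [NormedAddCommGroup E] [InnerProductSpace ℝ E] [FiniteDimensional ℝ E]
  [MeasurableSpace E] [BorelSpace E]

/-- Two distant sets cannot both be large (Maurey's argument). -/
theorem two_sets {W V : Set E} (hW : MeasurableSet W) (hV : MeasurableSet V) {r : ℝ} (hr : 0 ≤ r)
    (h : ∀ w ∈ W, ∀ v ∈ V, r ≤ ‖w - v‖) :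
    stdGaussian E W * stdGaussian E V ≤ ENNReal.ofReal (Real.exp (-(r ^ 2 / 4))) := by
  set b := stdOrthonormalBasis ℝ E
  set T : (Fin (Module.finrank ℝ E) → ℝ) → E := fun x => ∑ i, x i • b i with hT
  have hTm : Measurable T := by
    have : Continuous T := by rw [hT]; fun_prop
    exact this.measurable
  have hT2 : ∀ x y, ‖T x - T y‖ ^ 2 = ∑ i, (x i - y i) ^ 2 := by
    intro x y
    have e : T x - T y = b.repr.symm (WithLp.toLp 2 (fun i => x i - y i)) := by
      rw [← b.sum_repr_symm, hT]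
      simp only [← Finset.sum_sub_distrib, ← sub_smul]
    rw [e, LinearIsometryEquiv.norm_map, EuclideanSpace.real_norm_sq_eq]
  have hg : stdGaussian E = (gp (Module.finrank ℝ E)).map T := rfl
  rw [hg, Measure.map_apply hTm hW, Measure.map_apply hTm hV]
  set c : ℝ≥0∞ := ENNReal.ofReal (Real.exp (r ^ 2 / 4)) with hc
  have key := gpl (Module.finrank ℝ E) (f := (T ⁻¹' W).indicator fun _ => c)
    (g := (T ⁻¹' V).indicator 1) (h := fun _ => 1)
    (measurable_const.indicator (hTm hW)) (measurable_one.indicator (hTm hV)) measurable_const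
    (fun x y => by
      by_cases hx : x ∈ T ⁻¹' W
      · by_cases hy : y ∈ T ⁻¹' V
        · rw [indicator_of_mem hx, indicator_of_mem hy]
          simp only [Pi.one_apply, mul_one, one_pow, one_mul]
          refine ENNReal.ofReal_le_ofReal (Real.exp_le_exp.mpr ?_)
          rw [← hT2]
          have := h _ hx _ hy
          gcongr
        · rw [indicator_of_notMem hy]; simp
      · rw [indicator_of_notMem hx]; simp)
  rw [lintegral_indicator_one (hTm hV), lintegral_indicator_const (hTm hW)] at key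
  simp only [lintegral_const, measure_univ, mul_one, one_pow] at key
  have hcc : ENNReal.ofReal (Real.exp (-(r ^ 2 / 4))) * c = 1 := by
    rw [hc, ← ENNReal.ofReal_mul (Real.exp_pos _).le, ← Real.exp_add]
    simp
  calc gp (Module.finrank ℝ E) (T ⁻¹' W) * gp (Module.finrank ℝ E) (T ⁻¹' V)
      = (ENNReal.ofReal (Real.exp (-(r ^ 2 / 4))) * c) * (gp (Module.finrank ℝ E) (T ⁻¹' W) *
        gp (Module.finrank ℝ E) (T ⁻¹' V)) := by rw [hcc, one_mul]
    _ = ENNReal.ofReal (Real.exp (-(r ^ 2 / 4))) * (c * gp (Module.finrank ℝ E) (T ⁻¹' W) *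
        gp (Module.finrank ℝ E) (T ⁻¹' V)) := by ring
    _ ≤ ENNReal.ofReal (Real.exp (-(r ^ 2 / 4))) * 1 := by gcongr
    _ = _ := mul_one _

omit [FiniteDimensional ℝ E] [MeasurableSpace E] [BorelSpace E] in
/-- Dilations absorb balls. -/
theorem absorb {V : Set E} (hV : Convex ℝ V) {r : ℝ} (hr : 0 < r)
    (hb : Metric.closedBall (0 : E) r ⊆ V) {a ρ : ℝ} (ha : 0 ≤ a) (hρ : 0 ≤ ρ) {x y : E}
    (hx : x ∈ a • V) (hxy : ‖y - x‖ ≤ ρ) : y ∈ (a + ρ / r) • V := by
  rw [hV.add_smul ha (by positivity)]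
  have e : y = x + (y - x) := by abel
  rw [e]
  refine add_mem_add hx ?_
  rcases eq_or_lt_of_le hρ with h0 | h0
  · have : y - x = 0 := by
      rw [← norm_le_zero_iff, h0]; exact hxy
    rw [this]
    exact ⟨0, hb (by simp [hr.le]), by simp⟩
  · refine ⟨(r / ρ) • (y - x), hb ?_, ?_⟩
    · rw [mem_closedBall_zero_iff, norm_smul, Real.norm_of_nonneg (by positivity)]
      calc r / ρ * ‖y - x‖ ≤ r / ρ * ρ := by gcongr
        _ = r := by field_simp
    · simp only [smul_smul]
      rw [show ρ / r * (r / ρ) = 1 by field_simp, one_smul]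

/-- The dilation of a body of measure at least `q` containing a ball. -/
theorem dilate {V : Set E} (hVc : IsCompact V) (hV : Convex ℝ V) {r : ℝ} (hr : 0 < r)
    (hb : Metric.closedBall (0 : E) r ⊆ V) {a q : ℝ} (ha : 0 ≤ a) (hq : 0 < q) (hq4 : q ≤ 4)
    (hm : ENNReal.ofReal q ≤ stdGaussian E (a • V)) :
    3 / 4 ≤ stdGaussian E ((a + 2 * Real.sqrt (Real.log (4 / q)) / r) • V) := by
  set ρ : ℝ := 2 * Real.sqrt (Real.log (4 / q)) with hρ
  have hρ0 : 0 ≤ ρ := by positivity
  have hlog : 0 ≤ Real.log (4 / q) := by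
    apply Real.log_nonneg
    rw [le_div_iff₀ hq]; linarith
  set U := (a + ρ / r) • V with hU
  have hUm : MeasurableSet U := (hVc.smul _).measurableSet
  have h1 := two_sets (W := Uᶜ) (V := a • V) hUm.compl (hVc.smul _).measurableSet hρ0
    (fun w hw v hv => by
      by_contra hcon
      push Not at hcon
      exact hw (absorb hV hr hb ha hρ0 hv hcon.le))
  have h2 : stdGaussian E Uᶜ * ENNReal.ofReal q ≤ ENNReal.ofReal (q / 4) := by
    calc _ ≤ stdGaussian E Uᶜ * stdGaussian E (a • V) := by gcongr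
      _ ≤ _ := h1
      _ = ENNReal.ofReal (q / 4) := by
        congr 1
        have : ρ ^ 2 / 4 = Real.log (4 / q) := by
          rw [hρ, mul_pow, Real.sq_sqrt hlog]; ring
        rw [this, ← Real.log_inv, Real.exp_log (by positivity), inv_div]
  have h3 : stdGaussian E Uᶜ = 1 - stdGaussian E U := prob_compl_eq_one_sub hUm
  have h4 : stdGaussian E U ≤ 1 := prob_le_one
  have h5 : stdGaussian E U ≠ ⊤ := measure_ne_top _ _
  rw [h3] at h2
  generalize stdGaussian E U = z at *
  have h6 := ENNReal.toReal_mono (by finiteness) h2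
  rw [ENNReal.toReal_mul, ENNReal.toReal_sub_of_le h4 (by finiteness),
    ENNReal.toReal_ofReal hq.le, ENNReal.toReal_ofReal (by positivity), ENNReal.toReal_one] at h6
  have h7 : 3 / 4 ≤ z.toReal := by nlinarith
  rw [← ENNReal.ofReal_toReal h5]
  calc (3 / 4 : ℝ≥0∞) = ENNReal.ofReal (3 / 4) := by
        rw [ENNReal.ofReal_div_of_pos (by norm_num)]; simp
    _ ≤ _ := ENNReal.ofReal_le_ofReal h7

end Pool.Agent.VB
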