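import Pool.Agent.Lib.MP_0ffb5f_gt.Inr

set_option autoImplicit false
open MeasureTheory Set ENNReal ProbabilityTheory
open scoped Pointwise RealInnerProductSpace

namespace Pool.Agent.VB

variable {E : Type*} [NormedAddCommGroup E] [InnerProductSpace ℝ E] [FiniteDimensional ℝ E]
  [MeasurableSpace E] [BorelSpace E]

theorem ph_two : 1 / 20 ≤ ph 2 := by
  rw [ph_eq]
  have h1 : Real.sqrt (2 * Real.pi) ≤ 2.51 := by
    rw [Real.sqrt_le_left (by norm_num)]
    have := Real.pi_lt_d2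
    norm_num at this ⊢
    linarith
  have h2 : Real.exp 2 ≤ 7.39 := by
    have e : Real.exp 2 = Real.exp 1 * Real.exp 1 := by rw [← Real.exp_add]; norm_num
    rw [e]
    have := Real.exp_one_lt_d9
    have h0 := Real.exp_pos 1
    nlinarith
  have h3 : 0 < Real.sqrt (2 * Real.pi) := by positivity
  have h4 : -(2 : ℝ) ^ 2 / 2 = -2 := by norm_num
  rw [h4, Real.exp_neg, ← mul_inv, one_div]
  have h5 : Real.sqrt (2 * Real.pi) * Real.exp 2 ≤ 20 := by
    calc Real.sqrt (2 * Real.pi) * Real.exp 2 ≤ (2.51 : ℝ) * 7.39 := by gcongr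
      _ ≤ 20 := by norm_num
  exact inv_anti₀ (by positivity) h5

theorem g1_unit {y : ℝ} (h1 : -1 ≤ y) (h2 : y ≤ 1) :
    ENNReal.ofReal (1 / 10) ≤ g1 (Icc (y - 1) (y + 1)) := by
  have h := g1_Ico_ge (a := y - 1) (b := y + 1) (m := 1 / 20) (by linarith) (by norm_num)
    (fun x hx => ph_two.trans (ph_anti (by
      rw [abs_two, abs_le]; constructor <;> linarith [hx.1, hx.2])))
  have e : (y + 1 - (y - 1)) * (1 / 20) = 1 / 10 := by ring
  rw [e] at h
  exact h.trans (measure_mono Ico_subset_Icc_self)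

/-- projection of the part of a body in the slab -/
def PP {m : ℕ} (K : Set (ℝ × (Fin m → ℝ))) (R : ℝ) : Set (Fin m → ℝ) :=
  Prod.snd '' (K ∩ {p | p.1 ∈ Icc (-R) R})

theorem PP_meas {m : ℕ} {K : Set (ℝ × (Fin m → ℝ))} (hK : IsCompact K) (R : ℝ) :
    MeasurableSet (PP K R) := by
  refine ((hK.inter_right ?_).image continuous_snd).measurableSet
  exact isClosed_Icc.preimage continuous_fst

theorem slab_le {m : ℕ} {K : Set (ℝ × (Fin m → ℝ))} {R : ℝ} (hR : 0 < R) :
    (g1.prod (gp m)).real (K ∩ {p | p.1 ∈ Icc (-R) R}) ≤ 4 / 5 * R * (gp m).real (PP K R) := by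
  have h1 : K ∩ {p | p.1 ∈ Icc (-R) R} ⊆ Icc (-R) R ×ˢ PP K R := by
    rintro p ⟨hp, hp'⟩
    exact ⟨hp', p, ⟨hp, hp'⟩, rfl⟩
  have h2 : (g1.prod (gp m)) (K ∩ {p | p.1 ∈ Icc (-R) R}) ≤
      ENNReal.ofReal (4 / 5 * R) * gp m (PP K R) := by
    refine (measure_mono h1).trans ?_
    rw [Measure.prod_prod]
    gcongr
    refine (g1_Icc_le (M := 2 / 5) fun x _ => ph_le x).trans (ENNReal.ofReal_le_ofReal ?_)
    linarith
  have h3 := ENNReal.toReal_mono (by finiteness) h2
  rw [ENNReal.toReal_mul, ENNReal.toReal_ofReal (by positivity)] at h3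
  exact h3

theorem enlarge {m : ℕ} {K U : Set (ℝ × (Fin m → ℝ))} (hK : IsCompact K) (hU : MeasurableSet U)
    {R : ℝ} (hR : R ≤ 1)
    (h : ∀ y s x, (y, x) ∈ K → s ∈ Icc (-1 : ℝ) 1 → (y + s, x) ∈ U) :
    1 / 10 * (gp m).real (PP K R) ≤ (g1.prod (gp m)).real U := by
  have h1 : ENNReal.ofReal (1 / 10) * gp m (PP K R) ≤ (g1.prod (gp m)) U := by
    rw [prod_eq_sec hU]
    calc ENNReal.ofReal (1 / 10) * gp m (PP K R) = ∫⁻ _ in PP K R, ENNReal.ofReal (1 / 10) ∂(gp m) := by
          simp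
      _ ≤ ∫⁻ x in PP K R, g1 (sec U x) ∂(gp m) := by
          refine setLIntegral_mono' (PP_meas hK R) fun x hx => ?_
          obtain ⟨⟨y, x'⟩, ⟨h1, h2⟩, rfl⟩ := hx
          have h2' : y ∈ Icc (-R) R := h2
          refine (g1_unit (y := y) (by linarith [h2'.1]) (by linarith [h2'.2])).trans (measure_mono ?_)
          intro z hz
          show (z, x') ∈ U
          have := h y (z - y) x' h1 ⟨by linarith [hz.1], by linarith [hz.2]⟩
          rwa [add_sub_cancel] at this
      _ ≤ _ := setLIntegral_le_lintegral _ _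
  have h3 := ENNReal.toReal_mono (by finiteness) h1
  rw [ENNReal.toReal_mul, ENNReal.toReal_ofReal (by positivity)] at h3
  exact h3

instance : Measure.IsOpenPosMeasure g1 :=
  Measure.IsOpenPosMeasure.mk fun U hU hne h0 => by
    have := gaussianReal_absolutelyContinuous' 0 (one_ne_zero : (1 : NNReal) ≠ 0) h0
    exact (hU.measure_pos volume hne).ne' this

theorem gauss_pos {V : Set E} (h : (interior V).Nonempty) : 0 < stdGaussian E V := by
  set b := stdOrthonormalBasis ℝ E
  set T : (Fin (Module.finrank ℝ E) → ℝ) → E := fun x => ∑ i, x i • b i with hT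
  have hTc : Continuous T := by rw [hT]; fun_prop
  have hs : Function.Surjective T := fun v => ⟨fun i => b.repr v i, b.sum_repr v⟩
  have hg : stdGaussian E = (gp (Module.finrank ℝ E)).map T := rfl
  have hop : (gp (Module.finrank ℝ E)).IsOpenPosMeasure := by
    unfold gp; infer_instance
  have : (stdGaussian E).IsOpenPosMeasure := by
    rw [hg]; exact hTc.isOpenPosMeasure_map hs
  exact Measure.measure_pos_of_nonempty_interior _ h

theorem lam1 {p r : ℝ} (hp : 0 < p) (hp1 : p ≤ 1) (hr : 0 < r) (h : 5 * p / 16 ≤ r) :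
    1 + 1 / r + 2 * Real.sqrt (Real.log (4 / (p / (32 * r)))) / r ≤ 25 / p := by
  set x : ℝ := p / r with hx
  have hx0 : 0 < x := by positivity
  have hx1 : x ≤ 16 / 5 := by rw [hx, div_le_iff₀ hr]; linarith
  have e1 : 4 / (p / (32 * r)) = 128 / x := by rw [hx]; field_simp; norm_num
  rw [e1]
  have hlog : Real.log (128 / x) ≤ 16 / x + 11 / 10 := by
    have e2 : 128 / x = 16 / x * 2 ^ 3 := by ring
    rw [e2, Real.log_mul (by positivity) (by positivity), Real.log_pow]
    have h1 := Real.log_le_sub_one_of_pos (show 0 < 16 / x by positivity)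
    have h2 := Real.log_two_lt_d9
    push_cast
    linarith
  have hs : x * Real.sqrt (Real.log (128 / x)) ≤ 10 := by
    have h1 : x * Real.sqrt (Real.log (128 / x)) = Real.sqrt (x ^ 2 * Real.log (128 / x)) := by
      rw [Real.sqrt_mul (by positivity), Real.sqrt_sq hx0.le]
    rw [h1, Real.sqrt_le_left (by norm_num)]
    calc x ^ 2 * Real.log (128 / x) ≤ x ^ 2 * (16 / x + 11 / 10) := by gcongr
      _ = 16 * x + 11 / 10 * x ^ 2 := by field_simp
      _ ≤ 10 ^ 2 := by nlinarith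
  rw [le_div_iff₀ hp]
  have e3 : (1 + 1 / r + 2 * Real.sqrt (Real.log (128 / x)) / r) * p =
      p + x + 2 * (x * Real.sqrt (Real.log (128 / x))) := by
    rw [hx]; field_simp
  rw [e3]
  linarith

theorem lam2 {p r : ℝ} (hp : 0 < p) (hp1 : p ≤ 1) (hr : 1 / 2 ≤ r) :
    1 + 2 * Real.sqrt (Real.log (4 / p)) / r ≤ 25 / p := by
  have hr0 : 0 < r := by linarith
  have h1 : Real.log (4 / p) ≤ (2 / p) ^ 2 := by
    have h1 := Real.log_le_sub_one_of_pos (show 0 < 4 / p by positivity)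
    have h2 : 4 / p ≤ (2 / p) ^ 2 := by
      rw [div_pow, div_le_div_iff₀ hp (by positivity)]
      nlinarith
    linarith
  have h2 : Real.sqrt (Real.log (4 / p)) ≤ 2 / p := by
    rw [Real.sqrt_le_left (by positivity)]
    exact h1
  have h3 : 2 * Real.sqrt (Real.log (4 / p)) / r ≤ 8 / p := by
    rw [div_le_iff₀ hr0]
    have h4 : 0 < 2 / p := by positivity
    have h5 : 8 / p * r = 4 * (2 / p) * r := by ring
    rw [h5]
    nlinarith
  have h6 : 1 ≤ 1 / p := by rw [le_div_iff₀ hp]; linarith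
  have e : 25 / p = 25 * (1 / p) := by ring
  have e' : 8 / p = 8 * (1 / p) := by ring
  rw [e]; rw [e'] at h3
  linarith

/-- A centred body becomes large after a dilation by `25/γ(V)`. -/
theorem big_dilate [Nontrivial E] {V : Set E} (hVc : IsCompact V) (hV : Convex ℝ V)
    (h0 : (0 : E) ∈ interior V) (hbar : ∫ x in V, x ∂(stdGaussian E) = 0) :
    ∃ a : ℝ, 0 ≤ a ∧ a ≤ 25 / (stdGaussian E).real V ∧ 3 / 4 ≤ stdGaussian E (a • V) := by
  have h0V : (0 : E) ∈ V := interior_subset h0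
  have hpos : 0 < stdGaussian E V := gauss_pos ⟨0, h0⟩
  set p := (stdGaussian E).real V with hp
  have hp0 : 0 < p := ENNReal.toReal_pos hpos.ne' (measure_ne_top _ _)
  have hp1 : p ≤ 1 := measureReal_le_one
  have hpE : ENNReal.ofReal p = stdGaussian E V := ENNReal.ofReal_toReal (measure_ne_top _ _)
  obtain ⟨r, hr, hb, hnb⟩ := exists_radius hVc h0
  obtain ⟨m, b, hhs⟩ := exists_halfspace hVc hV hnb h0V
  have hslab := slab_mass hVc (R := 2 * r) (by positivity) hhs hbar
  -- pass to coordinates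
  set K : Set (ℝ × (Fin m → ℝ)) := PhiM b ⁻¹' V with hK
  have hKc : IsCompact K := preimage_compact b hVc
  have hin : ∀ q : ℝ × (Fin m → ℝ), ⟪b 0, PhiM b q⟫ = q.1 := by
    intro q
    have : PsiM b (PhiM b q) = q := Psi_Phi b q
    rw [← b.repr_apply_apply]
    exact congrArg Prod.fst this
  have hsm : MeasurableSet (V ∩ {x | -(2 * r) ≤ ⟪b 0, x⟫}) :=
    hVc.measurableSet.inter (measurableSet_le measurable_const (by fun_prop))
  have hset : PhiM b ⁻¹' (V ∩ {x | -(2 * r) ≤ ⟪b 0, x⟫}) =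
      K ∩ {q | q.1 ∈ Icc (-(2 * r)) (2 * r)} := by
    ext q
    constructor
    · rintro ⟨h1, h2⟩
      have h2' : -(2 * r) ≤ ⟪b 0, PhiM b q⟫ := h2
      have h3 := hhs _ h1
      rw [hin] at h2' h3
      exact ⟨h1, h2', h3⟩
    · rintro ⟨h1, h2⟩
      refine ⟨h1, ?_⟩
      show -(2 * r) ≤ ⟪b 0, PhiM b q⟫
      rw [hin]; exact h2.1
  have hslab2 : p / 2 ≤ (g1.prod (gp m)).real (K ∩ {q | q.1 ∈ Icc (-(2 * r)) (2 * r)}) := by
    rw [← hset]
    refine hslab.trans (le_of_eq ?_)
    rw [measureReal_def, measureReal_def, gauss_eq b hsm]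
  have hG := slab_le (K := K) (R := 2 * r) (by positivity)
  set G := (gp m).real (PP K (2 * r)) with hGdef
  have hG1 : G ≤ 1 := measureReal_le_one
  have hG2 : p / 2 ≤ 4 / 5 * (2 * r) * G := hslab2.trans hG
  have hrp : 5 * p / 16 ≤ r := by nlinarith
  rcases le_or_gt (2 * r) 1 with hcase | hcase
  · -- thin case
    have hUm : MeasurableSet ((1 + 1 / r) • V) := (hVc.smul _).measurableSet
    have henl := enlarge (U := PhiM b ⁻¹' ((1 + 1 / r) • V)) hKc
      (hUm.preimage (PhiM_cont b).measurable) hcase (fun y s x hyx hs => by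
        show PhiM b (y + s, x) ∈ (1 + 1 / r) • V
        rw [PhiM_shift]
        refine absorb hV hr hb zero_le_one zero_le_one (x := PhiM b (y, x)) ?_ ?_
        · rw [one_smul]; exact hyx
        · rw [add_sub_cancel_left, norm_smul, b.norm_eq_one, mul_one, Real.norm_eq_abs, abs_le]
          exact hs)
    have hq : ENNReal.ofReal (p / (32 * r)) ≤ stdGaussian E ((1 + 1 / r) • V) := by
      rw [gauss_eq b hUm, ENNReal.ofReal_le_iff_le_toReal (measure_ne_top _ _)]
      refine le_trans ?_ henl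
      rw [div_le_iff₀ (by positivity)]
      linarith
    have hq1 : p / (32 * r) ≤ 4 := by
      rw [div_le_iff₀ (by positivity)]; linarith
    refine ⟨_, ?_, lam1 hp0 hp1 hr hrp, dilate hVc hV hr hb (by positivity) (by positivity) hq1 hq⟩
    positivity
  · refine ⟨1 + 2 * Real.sqrt (Real.log (4 / p)) / r, by positivity, lam2 hp0 hp1 (by linarith),
      dilate hVc hV hr hb zero_le_one hp0 (by linarith) ?_⟩
    rw [one_smul, hpE]

/-- The balancing theorem for centred bodies. -/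
theorem balance [Nontrivial E] {V : Set E} (hVc : IsCompact V) (hV : Convex ℝ V)
    (h0 : (0 : E) ∈ interior V) (hbar : ∫ x in V, x ∂(stdGaussian E) = 0) (N : ℕ) (u : Fin N → E)
    (hu : ∀ i, ‖u i‖ ≤ 1) :
    ∃ ε : Fin N → ℤˣ, gauge V (∑ i, (ε i : ℤ) • u i) ≤ 500 / (stdGaussian E).real V := by
  obtain ⟨a, ha, ha', hm⟩ := big_dilate hVc hV h0 hbar
  obtain ⟨ε, hε⟩ := weak_banaszczyk N (fun i => (1 / 20 : ℝ) • u i) (fun i => by
    rw [norm_smul]
    have := hu i
    norm_num
    linarith) (a • V) (hVc.smul a) (hV.smul a) hm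
  refine ⟨ε, ?_⟩
  have h1 : ∑ i, (ε i : ℤ) • u i ∈ (20 * a) • V := by
    have e : ∑ i, (ε i : ℤ) • u i = (20 : ℝ) • ∑ i, (ε i : ℤ) • ((1 / 20 : ℝ) • u i) := by
      rw [Finset.smul_sum]
      refine Finset.sum_congr rfl fun i _ => ?_
      rw [smul_comm, smul_smul]
      norm_num
    rw [e, mul_smul]
    exact smul_mem_smul_set hε
  refine (gauge_le_of_mem (by positivity) h1).trans ?_
  calc 20 * a ≤ 20 * (25 / (stdGaussian E).real V) := by gcongr
    _ = _ := by ring

end Pool.Agent.VB
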