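import Pool.Agent.Lib.MP_0ffb5f_gt.OneDim

set_option autoImplicit false
open MeasureTheory Set ENNReal ProbabilityTheory

namespace Pool.Agent.VB

/-- Midpoint log-concavity of the Gaussian measure. -/
theorem logconc {n : ℕ} {A B C : Set (Fin n → ℝ)} (hA : MeasurableSet A) (hB : MeasurableSet B)
    (hC : MeasurableSet C) (h : ∀ x ∈ A, ∀ y ∈ B, (fun i => (x i + y i) / 2) ∈ C) :
    gp n A * gp n B ≤ gp n C ^ 2 := by
  have := gpl n (f := A.indicator 1) (g := B.indicator 1) (h := C.indicator 1)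
    (measurable_one.indicator hA) (measurable_one.indicator hB) (measurable_one.indicator hC)
    (fun x y => by
      by_cases hx : x ∈ A
      · by_cases hy : y ∈ B
        · rw [indicator_of_mem hx, indicator_of_mem hy, indicator_of_mem (h x hx y hy)]
          simp only [Pi.one_apply, mul_one, one_pow, one_mul]
          rw [ENNReal.one_le_ofReal]
          exact Real.one_le_exp (by positivity)
        · rw [indicator_of_notMem hy]; simp
      · rw [indicator_of_notMem hx]; simp)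
  rwa [lintegral_indicator_one hA, lintegral_indicator_one hB, lintegral_indicator_one hC] at this

/-- Telescoping for a log-concave sequence. -/
theorem telescope {m : ℕ → ℝ} (hanti : ∀ j, m (j + 1) ≤ m j) (h0 : m 0 ≤ 1) (h7 : 1 / 2 ≤ m 7)
    (hlc : ∀ j, m j * m (j + 2) ≤ m (j + 1) ^ 2) : m 0 - m 1 ≤ (1 / 3) * (m 1 - m 7) := by
  have hA : Antitone m := antitone_nat_of_succ_le hanti
  have hge : ∀ j ≤ 7, 1 / 2 ≤ m j := fun j hj => h7.trans (hA hj)
  have hle : ∀ j, m j ≤ 1 := fun j => (hA (Nat.zero_le j)).trans h0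
  have key : ∀ j, j ≤ 6 → m 0 * m (j + 1) ≤ m 1 * m j := by
    intro j
    induction j with
    | zero => intro _; rw [mul_comm]
    | succ j ih =>
      intro hj
      have h1 := ih (by omega)
      have h2 := hlc j
      have p0 : 0 < m j := by have := hge j (by omega); linarith
      have p1 : 0 < m (j + 1) := by have := hge (j + 1) (by omega); linarith
      have p2 : 0 < m 0 := by have := hge 0 (by omega); linarith
      have h3 : m 0 * (m j * m (j + 2)) ≤ m 0 * m (j + 1) ^ 2 := by gcongr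
      have h4 : m 0 * m (j + 1) * m (j + 1) ≤ m 1 * m j * m (j + 1) := by gcongr
      have h5 : m j * (m 0 * m (j + 1 + 1)) ≤ m j * (m 1 * m (j + 1)) := by nlinarith
      exact le_of_mul_le_mul_left h5 p0
  have step : ∀ j, 1 ≤ j → j ≤ 6 → (m 0 - m 1) / 2 ≤ m j - m (j + 1) := by
    intro j hj1 hj
    have h1 := key j hj
    have p1 : 1 / 2 ≤ m (j + 1) := hge (j + 1) (by omega)
    have h2 : m 1 ≤ 1 := hle 1
    have h3 : 1 / 2 ≤ m 1 := hge 1 (by omega)
    have h4 : m (j + 1) ≤ m j := hanti j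
    have h5 : m 1 ≤ m 0 := hanti 0
    nlinarith
  have s1 := step 1 (by norm_num) (by norm_num)
  have s2 := step 2 (by norm_num) (by norm_num)
  have s3 := step 3 (by norm_num) (by norm_num)
  have s4 := step 4 (by norm_num) (by norm_num)
  have s5 := step 5 (by norm_num) (by norm_num)
  have s6 := step 6 (by norm_num) (by norm_num)
  norm_num at s1 s2 s3 s4 s5 s6
  linarith

variable {n : ℕ}

/-- one-dimensional section -/
def sec (K : Set (ℝ × (Fin n → ℝ))) (x : Fin n → ℝ) : Set ℝ := {y | (y, x) ∈ K}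

/-- base points of chords of length at least `l` -/
def EE (K : Set (ℝ × (Fin n → ℝ))) (l : ℝ) : Set (Fin n → ℝ) := {x | ∃ y, (y, x) ∈ K ∧ (y + l, x) ∈ K}

noncomputable def lo (K : Set (ℝ × (Fin n → ℝ))) (x : Fin n → ℝ) : ℝ := sInf (sec K x)
noncomputable def hi (K : Set (ℝ × (Fin n → ℝ))) (x : Fin n → ℝ) : ℝ := sSup (sec K x)

theorem mem_EE_zero {K : Set (ℝ × (Fin n → ℝ))} {x : Fin n → ℝ} :
    x ∈ EE K 0 ↔ (sec K x).Nonempty := by
  constructor
  · rintro ⟨y, h, _⟩; exact ⟨y, h⟩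
  · rintro ⟨y, h⟩; exact ⟨y, h, by rw [add_zero]; exact h⟩

theorem sec_compact {K : Set (ℝ × (Fin n → ℝ))} (hK : IsCompact K) (x : Fin n → ℝ) :
    IsCompact (sec K x) := by
  have : sec K x = Prod.fst '' (K ∩ {p | p.2 = x}) := by
    ext y
    constructor
    · intro h; exact ⟨(y, x), ⟨h, rfl⟩, rfl⟩
    · rintro ⟨⟨y', x'⟩, ⟨h, h'⟩, rfl⟩
      have h'' : x' = x := h'
      subst h''
      exact h
  rw [this]
  refine (hK.inter_right ?_).image continuous_fst
  exact isClosed_eq continuous_snd continuous_const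

theorem sec_convex {K : Set (ℝ × (Fin n → ℝ))} (hK : Convex ℝ K) (x : Fin n → ℝ) :
    Convex ℝ (sec K x) := by
  intro y hy z hz a b ha hb hab
  have := hK hy hz ha hb hab
  have e : a • (y, x) + b • (z, x) = (a • y + b • z, x) := by
    ext1
    · rfl
    · show a • x + b • x = x
      rw [← add_smul, hab, one_smul]
  rw [e] at this
  exact this

theorem sec_eq {K : Set (ℝ × (Fin n → ℝ))} (hKc : IsCompact K) (hK : Convex ℝ K)
    {x : Fin n → ℝ} (hx : x ∈ EE K 0) : sec K x = Icc (lo K x) (hi K x) := by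
  refine eq_Icc_of_connected_compact ⟨mem_EE_zero.mp hx, (sec_convex hK x).isPreconnected⟩
    (sec_compact hKc x)

theorem lo_le_hi {K : Set (ℝ × (Fin n → ℝ))} (hKc : IsCompact K)
    {x : Fin n → ℝ} (hx : x ∈ EE K 0) : lo K x ≤ hi K x := by
  obtain ⟨y, hy⟩ := mem_EE_zero.mp hx
  exact (csInf_le (sec_compact hKc x).bddBelow hy).trans (le_csSup (sec_compact hKc x).bddAbove hy)

theorem mem_EE {K : Set (ℝ × (Fin n → ℝ))} (hKc : IsCompact K) (hK : Convex ℝ K)
    {x : Fin n → ℝ} {l : ℝ} (hl : 0 ≤ l) : x ∈ EE K l ↔ x ∈ EE K 0 ∧ l ≤ hi K x - lo K x := by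
  constructor
  · rintro ⟨y, h1, h2⟩
    have hx : x ∈ EE K 0 := mem_EE_zero.mpr ⟨y, h1⟩
    refine ⟨hx, ?_⟩
    have e := sec_eq hKc hK hx
    have m1 : y ∈ sec K x := h1
    have m2 : y + l ∈ sec K x := h2
    rw [e] at m1 m2
    linarith [m1.1, m2.2]
  · rintro ⟨hx, h⟩
    have e := sec_eq hKc hK hx
    have hlh := lo_le_hi hKc hx
    refine ⟨lo K x, ?_, ?_⟩
    · show lo K x ∈ sec K x
      rw [e]; exact ⟨le_rfl, hlh⟩
    · show lo K x + l ∈ sec K x
      rw [e]; constructor <;> linarith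

theorem EE_anti {K : Set (ℝ × (Fin n → ℝ))} (hKc : IsCompact K) (hK : Convex ℝ K)
    {l l' : ℝ} (hl : 0 ≤ l) (h : l ≤ l') : EE K l' ⊆ EE K l := by
  intro x hx
  rw [mem_EE hKc hK (hl.trans h)] at hx
  rw [mem_EE hKc hK hl]
  exact ⟨hx.1, h.trans hx.2⟩

theorem EE_compact {K : Set (ℝ × (Fin n → ℝ))} (hKc : IsCompact K) (l : ℝ) :
    IsCompact (EE K l) := by
  have : EE K l = Prod.snd '' (K ∩ (fun p => (p.1 + l, p.2)) ⁻¹' K) := by
    ext x
    constructor
    · rintro ⟨y, h1, h2⟩; exact ⟨(y, x), ⟨h1, h2⟩, rfl⟩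
    · rintro ⟨⟨y, x'⟩, ⟨h1, h2⟩, rfl⟩; exact ⟨y, h1, h2⟩
  rw [this]
  refine (hKc.inter_right (hKc.isClosed.preimage ?_)).image continuous_snd
  fun_prop

theorem EE_meas {K : Set (ℝ × (Fin n → ℝ))} (hKc : IsCompact K) (l : ℝ) :
    MeasurableSet (EE K l) := (EE_compact hKc l).measurableSet

theorem hi_meas {K : Set (ℝ × (Fin n → ℝ))} (hKc : IsCompact K) (hK : Convex ℝ K) :
    Measurable (hi K) := by
  refine measurable_of_Ici fun c => ?_
  have e : hi K ⁻¹' Ici c = (Prod.snd '' (K ∩ {p | c ≤ p.1})) ∪ ((EE K 0)ᶜ ∩ {_x | c ≤ 0}) := by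
    ext x
    constructor
    · intro hx
      have hx' : c ≤ hi K x := hx
      by_cases h0 : x ∈ EE K 0
      · left
        have e := sec_eq hKc hK h0
        have hm : hi K x ∈ sec K x := by rw [e]; exact ⟨lo_le_hi hKc h0, le_rfl⟩
        exact ⟨(hi K x, x), ⟨hm, hx'⟩, rfl⟩
      · right
        refine ⟨h0, ?_⟩
        rw [mem_EE_zero, not_nonempty_iff_eq_empty] at h0
        rw [hi, h0, Real.sSup_empty] at hx'
        exact hx'
    · rintro (⟨⟨y, x'⟩, ⟨h1, h2⟩, rfl⟩ | ⟨h0, hc⟩)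
      · have h2' : c ≤ y := h2
        exact h2'.trans (le_csSup (sec_compact hKc x').bddAbove h1)
      · rw [mem_compl_iff, mem_EE_zero, not_nonempty_iff_eq_empty] at h0
        show c ≤ hi K x
        rw [hi, h0, Real.sSup_empty]
        exact hc
  rw [e]
  refine MeasurableSet.union ?_ ?_
  · refine (IsCompact.image (hKc.inter_right ?_) continuous_snd).measurableSet
    exact isClosed_le continuous_const continuous_fst
  · exact (EE_meas hKc 0).compl.inter (MeasurableSet.const _)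

theorem lo_meas {K : Set (ℝ × (Fin n → ℝ))} (hKc : IsCompact K) (hK : Convex ℝ K) :
    Measurable (lo K) := by
  refine measurable_of_Iic fun c => ?_
  have e : lo K ⁻¹' Iic c = (Prod.snd '' (K ∩ {p | p.1 ≤ c})) ∪ ((EE K 0)ᶜ ∩ {_x | 0 ≤ c}) := by
    ext x
    constructor
    · intro hx
      have hx' : lo K x ≤ c := hx
      by_cases h0 : x ∈ EE K 0
      · left
        have e := sec_eq hKc hK h0
        have hm : lo K x ∈ sec K x := by rw [e]; exact ⟨le_rfl, lo_le_hi hKc h0⟩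
        exact ⟨(lo K x, x), ⟨hm, hx'⟩, rfl⟩
      · right
        refine ⟨h0, ?_⟩
        rw [mem_EE_zero, not_nonempty_iff_eq_empty] at h0
        rw [lo, h0, Real.sInf_empty] at hx'
        exact hx'
    · rintro (⟨⟨y, x'⟩, ⟨h1, h2⟩, rfl⟩ | ⟨h0, hc⟩)
      · have h2' : y ≤ c := h2
        exact (csInf_le (sec_compact hKc x').bddBelow h1).trans h2'
      · rw [mem_compl_iff, mem_EE_zero, not_nonempty_iff_eq_empty] at h0
        show lo K x ≤ c
        rw [lo, h0, Real.sInf_empty]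
        exact hc
  rw [e]
  refine MeasurableSet.union ?_ ?_
  · refine (IsCompact.image (hKc.inter_right ?_) continuous_snd).measurableSet
    exact isClosed_le continuous_fst continuous_const
  · exact (EE_meas hKc 0).compl.inter (MeasurableSet.const _)

/-- weight of a base point -/
noncomputable def WW (K : Set (ℝ × (Fin n → ℝ))) (x : Fin n → ℝ) : ℝ :=
  ph (near (lo K x) (hi K x))

theorem WW_pos (K : Set (ℝ × (Fin n → ℝ))) (x : Fin n → ℝ) : 0 < WW K x := ph_pos _

theorem WW_meas {K : Set (ℝ × (Fin n → ℝ))} (hKc : IsCompact K) (hK : Convex ℝ K) :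
    Measurable (WW K) := by
  refine (measurable_gaussianPDFReal 0 1).comp ?_
  exact (lo_meas hKc hK).max ((hi_meas hKc hK).min measurable_const)

theorem WW_gt {K : Set (ℝ × (Fin n → ℝ))} (hKc : IsCompact K) (hK : Convex ℝ K)
    {x : Fin n → ℝ} (hx : x ∈ EE K 0) {t : ℝ} : t < WW K x ↔ ∃ y, (y, x) ∈ K ∧ t < ph y := by
  have e := sec_eq hKc hK hx
  constructor
  · intro h
    refine ⟨near (lo K x) (hi K x), ?_, h⟩
    show _ ∈ sec K x
    rw [e]; exact near_mem (lo_le_hi hKc hx)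
  · rintro ⟨y, hy, ht⟩
    have hy' : y ∈ sec K x := hy
    rw [e] at hy'
    exact lt_of_lt_of_le ht (ph_anti (near_le hy'))

/-- level set of the weight -/
def QQ (K : Set (ℝ × (Fin n → ℝ))) (t : ℝ) : Set (Fin n → ℝ) := {x | x ∈ EE K 0 ∧ t < WW K x}

theorem QQ_meas {K : Set (ℝ × (Fin n → ℝ))} (hKc : IsCompact K) (hK : Convex ℝ K) (t : ℝ) :
    MeasurableSet (QQ K t) :=
  (EE_meas hKc 0).inter (measurableSet_lt measurable_const (WW_meas hKc hK))

theorem mid_mem {K : Set (ℝ × (Fin n → ℝ))} (hK : Convex ℝ K) {y y' : ℝ} {x x' : Fin n → ℝ}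
    (h : (y, x) ∈ K) (h' : (y', x') ∈ K) : ((y + y') / 2, fun i => (x i + x' i) / 2) ∈ K := by
  have := hK h h' (show (0 : ℝ) ≤ 1 / 2 by norm_num) (show (0 : ℝ) ≤ 1 / 2 by norm_num) (by norm_num)
  have e : (1 / 2 : ℝ) • (y, x) + (1 / 2 : ℝ) • (y', x') = ((y + y') / 2, fun i => (x i + x' i) / 2) := by
    ext1
    · show 1 / 2 * y + 1 / 2 * y' = _
      ring
    · funext i
      show 1 / 2 * x i + 1 / 2 * x' i = _
      ring
  rwa [e] at this

theorem level_mid {K : Set (ℝ × (Fin n → ℝ))} (hKc : IsCompact K) (hK : Convex ℝ K) {t l l' : ℝ}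
    (hl : 0 ≤ l) (hl' : 0 ≤ l') {x x' : Fin n → ℝ} (hx : x ∈ QQ K t ∩ EE K l)
    (hx' : x' ∈ QQ K t ∩ EE K l') :
    (fun i => (x i + x' i) / 2) ∈ QQ K t ∩ EE K ((l + l') / 2) := by
  obtain ⟨⟨h0, hW⟩, ⟨z, hz1, hz2⟩⟩ := hx
  obtain ⟨⟨h0', hW'⟩, ⟨z', hz1', hz2'⟩⟩ := hx'
  obtain ⟨y, hy, hty⟩ := (WW_gt hKc hK h0).mp hW
  obtain ⟨y', hy', hty'⟩ := (WW_gt hKc hK h0').mp hW'
  have hm := mid_mem hK hy hy'
  have hm0 : (fun i => (x i + x' i) / 2) ∈ EE K 0 := mem_EE_zero.mpr ⟨_, hm⟩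
  refine ⟨⟨hm0, (WW_gt hKc hK hm0).mpr ⟨_, hm, ?_⟩⟩, ⟨(z + z') / 2, mid_mem hK hz1 hz1', ?_⟩⟩
  · rcases le_total |y| |y'| with h | h
    · refine lt_of_lt_of_le hty' (ph_anti ?_)
      rw [abs_div, abs_of_pos (show (0 : ℝ) < 2 by norm_num)]
      have := abs_add_le y y'
      linarith
    · refine lt_of_lt_of_le hty (ph_anti ?_)
      rw [abs_div, abs_of_pos (show (0 : ℝ) < 2 by norm_num)]
      have := abs_add_le y y'
      linarith
  · have := mid_mem hK hz2 hz2'
    have e : (z + l + (z' + l')) / 2 = (z + z') / 2 + (l + l') / 2 := by ring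
    rwa [e] at this

/-- the comparison of short and medium chords inside a level set -/
theorem level_compare {K : Set (ℝ × (Fin n → ℝ))} (hKc : IsCompact K) (hK : Convex ℝ K)
    {t e : ℝ} (he : 0 ≤ e) (h7 : 1 / 2 ≤ gp n (QQ K t ∩ EE K (7 * e))) :
    gp n (QQ K t ∩ (EE K 0 \ EE K e)) ≤ 3⁻¹ * gp n (QQ K t ∩ (EE K e \ EE K (7 * e))) := by
  set m : ℕ → ℝ := fun j => (gp n).real (QQ K t ∩ EE K (j * e)) with hm
  have hmeas : ∀ l, MeasurableSet (QQ K t ∩ EE K l) := fun l =>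
    (QQ_meas hKc hK t).inter (EE_meas hKc l)
  have hsub : ∀ j : ℕ, QQ K t ∩ EE K ((j + 1 : ℕ) * e) ⊆ QQ K t ∩ EE K (j * e) := by
    intro j
    refine inter_subset_inter_right _ (EE_anti hKc hK (by positivity) ?_)
    push_cast
    nlinarith
  have key := telescope (m := m) (fun j => measureReal_mono (hsub j)) (measureReal_le_one) ?_ ?_
  · -- translate
    have d1 : (gp n).real (QQ K t ∩ (EE K 0 \ EE K e)) = m 0 - m 1 := by
      have e1 : QQ K t ∩ (EE K 0 \ EE K e) = (QQ K t ∩ EE K 0) \ (QQ K t ∩ EE K e) := by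
        ext x; simp only [mem_inter_iff, Set.mem_sdiff]; tauto
      rw [e1, measureReal_sdiff (inter_subset_inter_right _ (EE_anti hKc hK le_rfl he)) (hmeas e)]
      simp [hm]
    have d2 : (gp n).real (QQ K t ∩ (EE K e \ EE K (7 * e))) = m 1 - m 7 := by
      have e1 : QQ K t ∩ (EE K e \ EE K (7 * e)) = (QQ K t ∩ EE K e) \ (QQ K t ∩ EE K (7 * e)) := by
        ext x; simp only [mem_inter_iff, Set.mem_sdiff]; tauto
      rw [e1, measureReal_sdiff (inter_subset_inter_right _ (EE_anti hKc hK he (by linarith)))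
        (hmeas _)]
      simp [hm]
    rw [← d1, ← d2] at key
    rw [← ENNReal.ofReal_toReal (measure_ne_top (gp n) (QQ K t ∩ (EE K 0 \ EE K e))),
      ← ENNReal.ofReal_toReal (measure_ne_top (gp n) (QQ K t ∩ (EE K e \ EE K (7 * e))))]
    have e3 : (3⁻¹ : ℝ≥0∞) = ENNReal.ofReal (1 / 3) := by
      rw [one_div, ENNReal.ofReal_inv_of_pos (by norm_num)]; simp
    rw [e3, ← ENNReal.ofReal_mul (by norm_num)]
    exact ENNReal.ofReal_le_ofReal key
  · have h8 : ((1 : ℝ≥0∞) / 2).toReal ≤ (gp n (QQ K t ∩ EE K (7 * e))).toReal :=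
      ENNReal.toReal_mono (measure_ne_top _ _) h7
    simpa [hm, measureReal_def] using h8
  · intro j
    have h1 := logconc (n := n) (hmeas (j * e)) (hmeas ((j + 2 : ℕ) * e)) (hmeas ((j + 1 : ℕ) * e))
      (fun x hx y hy => by
        have := level_mid hKc hK (t := t) (l := j * e) (l' := ((j + 2 : ℕ) : ℝ) * e)
          (by positivity) (by positivity) hx hy
        have e4 : ((j : ℝ) * e + ((j + 2 : ℕ) : ℝ) * e) / 2 = ((j + 1 : ℕ) : ℝ) * e := by
          push_cast; ring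
        rwa [e4] at this)
    have h2 := ENNReal.toReal_mono (by finiteness) h1
    rw [ENNReal.toReal_mul, ENNReal.toReal_pow] at h2
    exact h2

end Pool.Agent.VB
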