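import Pool.Agent.Lib.MP_0ffb5f_gt.PL

set_option autoImplicit false
open MeasureTheory Set ENNReal ProbabilityTheory

namespace Pool.Agent.VB

/-- standard Gaussian measure on the line -/
noncomputable abbrev g1 : Measure ℝ := gaussianReal 0 1

theorem lintegral_g1 {f : ℝ → ℝ≥0∞} (hf : Measurable f) :
    ∫⁻ x, f x ∂g1 = ∫⁻ x, f x * gaussianPDF 0 1 x := by
  rw [g1, gaussianReal_of_var_ne_zero _ one_ne_zero,
    lintegral_withDensity_eq_lintegral_mul _ (measurable_gaussianPDF 0 1) hf]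
  refine lintegral_congr fun x => ?_
  rw [Pi.mul_apply, mul_comm]

theorem pdf_mul (x y : ℝ) :
    gaussianPDF 0 1 x * gaussianPDF 0 1 y * ENNReal.ofReal (Real.exp ((x - y) ^ 2 / 4))
      = gaussianPDF 0 1 ((x + y) / 2) ^ 2 := by
  have hp := fun z => gaussianPDFReal_nonneg 0 1 z
  rw [gaussianPDF, gaussianPDF, gaussianPDF, ← ENNReal.ofReal_mul (hp _),
    ← ENNReal.ofReal_mul (mul_nonneg (hp _) (hp _)), ← ENNReal.ofReal_pow (hp _)]
  congr 1
  simp only [gaussianPDFReal]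
  have : (Real.sqrt (2 * Real.pi * ((1 : NNReal) : ℝ)))⁻¹ * Real.exp (-(x - 0) ^ 2 / (2 * ((1 : NNReal) : ℝ))) *
      ((Real.sqrt (2 * Real.pi * ((1 : NNReal) : ℝ)))⁻¹ * Real.exp (-(y - 0) ^ 2 / (2 * ((1 : NNReal) : ℝ)))) *
      Real.exp ((x - y) ^ 2 / 4) = ((Real.sqrt (2 * Real.pi * ((1 : NNReal) : ℝ)))⁻¹) ^ 2 *
      (Real.exp (-(x - 0) ^ 2 / (2 * ((1 : NNReal) : ℝ))) * Real.exp (-(y - 0) ^ 2 / (2 * ((1 : NNReal) : ℝ))) *
      Real.exp ((x - y) ^ 2 / 4)) := by ring
  rw [this, mul_pow, ← Real.exp_add, ← Real.exp_add, ← Real.exp_nat_mul]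
  congr 2
  simp
  ring

/-- One-dimensional Gaussian Prekopa-Leindler with quadratic cost. -/
theorem gpl_one {f g h : ℝ → ℝ≥0∞} (hf : Measurable f) (hg : Measurable g) (hh : Measurable h)
    (hyp : ∀ x y, f x * g y ≤ h ((x + y) / 2) ^ 2 * ENNReal.ofReal (Real.exp ((x - y) ^ 2 / 4))) :
    (∫⁻ x, f x ∂g1) * (∫⁻ x, g x ∂g1) ≤ (∫⁻ x, h x ∂g1) ^ 2 := by
  rw [lintegral_g1 hf, lintegral_g1 hg, lintegral_g1 hh]
  have hm := measurable_gaussianPDF 0 1
  refine pl_one (hf.mul hm) (hg.mul hm) (hh.mul hm) fun x y => ?_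
  calc f x * gaussianPDF 0 1 x * (g y * gaussianPDF 0 1 y)
      = (f x * g y) * (gaussianPDF 0 1 x * gaussianPDF 0 1 y) := by ring
    _ ≤ (h ((x + y) / 2) ^ 2 * ENNReal.ofReal (Real.exp ((x - y) ^ 2 / 4))) *
        (gaussianPDF 0 1 x * gaussianPDF 0 1 y) := mul_le_mul' (hyp x y) le_rfl
    _ = h ((x + y) / 2) ^ 2 * (gaussianPDF 0 1 x * gaussianPDF 0 1 y *
        ENNReal.ofReal (Real.exp ((x - y) ^ 2 / 4))) := by ring
    _ = (h ((x + y) / 2) * gaussianPDF 0 1 ((x + y) / 2)) ^ 2 := by rw [pdf_mul, mul_pow]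

/-- product Gaussian -/
noncomputable abbrev gp (n : ℕ) : Measure (Fin n → ℝ) := Measure.pi fun _ => g1

theorem lintegral_gp_succ {n : ℕ} {f : (Fin (n + 1) → ℝ) → ℝ≥0∞} (hf : Measurable f) :
    ∫⁻ x, f x ∂(gp (n + 1)) = ∫⁻ a, ∫⁻ x, f (Fin.cons a x) ∂(gp n) ∂g1 := by
  have hmp := (measurePreserving_piFinSuccAbove (fun _ : Fin (n + 1) => g1) 0).symm
  rw [gp, ← hmp.lintegral_comp hf]
  refine (lintegral_prod (μ := g1) (ν := gp n)
    (fun z => f ((MeasurableEquiv.piFinSuccAbove (fun _ => ℝ) 0).symm z))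
    (hf.comp hmp.measurable).aemeasurable).trans ?_
  refine lintegral_congr fun a => lintegral_congr fun x => ?_
  congr 1
  rw [MeasurableEquiv.piFinSuccAbove_symm_apply]
  simp [Fin.insertNthEquiv, Fin.insertNth_zero']

/-- Gaussian Prekopa-Leindler with quadratic cost, midpoint form. -/
theorem gpl (n : ℕ) : ∀ {f g h : (Fin n → ℝ) → ℝ≥0∞}, Measurable f → Measurable g → Measurable h →
    (∀ x y, f x * g y ≤ h (fun i => (x i + y i) / 2) ^ 2 *
      ENNReal.ofReal (Real.exp ((∑ i, (x i - y i) ^ 2) / 4))) →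
    (∫⁻ x, f x ∂(gp n)) * (∫⁻ x, g x ∂(gp n)) ≤ (∫⁻ x, h x ∂(gp n)) ^ 2 := by
  induction n with
  | zero =>
    intro f g h hf hg hh hyp
    have := hyp default default
    have e : ∀ x : Fin 0 → ℝ, x = default := fun x => Subsingleton.elim _ _
    have hi : ∀ (F : (Fin 0 → ℝ) → ℝ≥0∞), ∫⁻ x, F x ∂(gp 0) = F default := by
      intro F
      calc ∫⁻ x, F x ∂(gp 0) = ∫⁻ _, F default ∂(gp 0) := lintegral_congr fun x => by rw [e x]
        _ = F default := by simp
    rw [hi, hi, hi]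
    rw [e (fun i => ((default : Fin 0 → ℝ) i + (default : Fin 0 → ℝ) i) / 2)] at this
    simpa using this
  | succ n ih =>
    intro f g h hf hg hh hyp
    rw [lintegral_gp_succ hf, lintegral_gp_succ hg, lintegral_gp_succ hh]
    have hcons : Measurable fun p : ℝ × (Fin n → ℝ) => (Fin.cons p.1 p.2 : Fin (n + 1) → ℝ) := by
      refine measurable_pi_lambda _ fun i => ?_
      refine Fin.cases ?_ (fun j => ?_) i
      · simp only [Fin.cons_zero]; exact measurable_fst
      · simp only [Fin.cons_succ]; exact (measurable_pi_apply j).comp measurable_snd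
    have hcons' : ∀ a : ℝ, Measurable fun x : Fin n → ℝ => (Fin.cons a x : Fin (n + 1) → ℝ) :=
      fun a => hcons.comp measurable_prodMk_left
    refine gpl_one ?_ ?_ ?_ fun a b => ?_
    · exact (hf.comp hcons).lintegral_prod_right'
    · exact (hg.comp hcons).lintegral_prod_right'
    · exact (hh.comp hcons).lintegral_prod_right'
    set c := ENNReal.ofReal (Real.exp ((a - b) ^ 2 / 8)) with hc
    have hc2 : c ^ 2 = ENNReal.ofReal (Real.exp ((a - b) ^ 2 / 4)) := by
      rw [hc, ← ENNReal.ofReal_pow (Real.exp_pos _).le, ← Real.exp_nat_mul]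
      congr 2
      push_cast
      ring
    have := ih (f := fun x => f (Fin.cons a x)) (g := fun x => g (Fin.cons b x))
      (h := fun x => c * h (Fin.cons ((a + b) / 2) x)) (hf.comp (hcons' a)) (hg.comp (hcons' b))
      ((hh.comp (hcons' _)).const_mul c) (fun x y => by
        have h1 := hyp (Fin.cons a x) (Fin.cons b y)
        have e1 : (fun i => ((Fin.cons a x : Fin (n + 1) → ℝ) i + (Fin.cons b y : Fin (n + 1) → ℝ) i) / 2)
            = Fin.cons ((a + b) / 2) (fun i => (x i + y i) / 2) := by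
          funext i
          refine Fin.cases ?_ (fun j => ?_) i <;> simp
        rw [e1, Fin.sum_univ_succ] at h1
        simp only [Fin.cons_zero, Fin.cons_succ] at h1
        refine h1.trans (le_of_eq ?_)
        have e2 : ((a - b) ^ 2 + ∑ i, (x i - y i) ^ 2) / 4
            = (a - b) ^ 2 / 4 + (∑ i, (x i - y i) ^ 2) / 4 := add_div _ _ _
        rw [e2, Real.exp_add, ENNReal.ofReal_mul (Real.exp_pos _).le, ← hc2]
        ring)
    rw [lintegral_const_mul c (f := fun x => h (Fin.cons ((a + b) / 2) x)) (hh.comp (hcons' _)),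
      mul_pow, hc2, mul_comm (ENNReal.ofReal _)] at this
    exact this

end Pool.Agent.VB
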