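import Pool.Agent.Lib.MP_0ffb5f_gt.Conc

set_option autoImplicit false
open MeasureTheory Set ENNReal ProbabilityTheory
open scoped Pointwise RealInnerProductSpace

namespace Pool.Agent.VB

variable {E : Type*} [NormedAddCommGroup E] [InnerProductSpace ℝ E] [FiniteDimensional ℝ E]
  [MeasurableSpace E] [BorelSpace E]

omit [FiniteDimensional ℝ E] [MeasurableSpace E] [BorelSpace E] in
theorem exists_radius [Nontrivial E] {V : Set E} (hVc : IsCompact V) (h0 : (0 : E) ∈ interior V) :
    ∃ r : ℝ, 0 < r ∧ Metric.closedBall (0 : E) r ⊆ V ∧ ¬ Metric.closedBall (0 : E) (2 * r) ⊆ V := by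
  obtain ⟨r0, hr0, hb⟩ := Metric.nhds_basis_closedBall.mem_iff.mp (mem_interior_iff_mem_nhds.mp h0)
  obtain ⟨M, hM⟩ := hVc.isBounded.subset_closedBall (0 : E)
  have hex : ∃ k : ℕ, ¬ Metric.closedBall (0 : E) (2 ^ k * r0) ⊆ V := by
    obtain ⟨k, hk⟩ := pow_unbounded_of_one_lt (M / r0) (by norm_num : (1 : ℝ) < 2)
    refine ⟨k, fun hcon => ?_⟩
    obtain ⟨x, hx⟩ := NormedSpace.exists_lt_norm ℝ E (0 : ℝ)
    have hx0 : 0 < ‖x‖ := hx
    rw [div_lt_iff₀ hr0] at hk
    have h1 : ((2 ^ k * r0) / ‖x‖) • x ∈ Metric.closedBall (0 : E) (2 ^ k * r0) := by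
      rw [mem_closedBall_zero_iff, norm_smul, Real.norm_of_nonneg (by positivity),
        div_mul_cancel₀ _ hx0.ne']
    have h2 := hM (hcon h1)
    rw [mem_closedBall_zero_iff, norm_smul, Real.norm_of_nonneg (by positivity),
        div_mul_cancel₀ _ hx0.ne'] at h2
    linarith
  classical
  have hk := Nat.find_spec hex
  have hpos : Nat.find hex ≠ 0 := by
    intro h
    rw [h] at hk
    apply hk
    simpa using hb
  obtain ⟨j, hj⟩ := Nat.exists_eq_succ_of_ne_zero hpos
  have hmin := Nat.find_min hex (m := j) (by omega)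
  push Not at hmin
  refine ⟨2 ^ j * r0, by positivity, hmin, ?_⟩
  rw [hj, pow_succ] at hk
  have e : 2 * (2 ^ j * r0) = 2 ^ j * 2 * r0 := by ring
  rw [e]; exact hk

omit [MeasurableSpace E] [BorelSpace E] in
theorem exists_halfspace {V : Set E} (hVc : IsCompact V) (hV : Convex ℝ V) {r : ℝ}
    (h : ¬ Metric.closedBall (0 : E) r ⊆ V) (h0 : (0 : E) ∈ V) :
    ∃ (m : ℕ) (b : OrthonormalBasis (Fin (m + 1)) ℝ E), ∀ v ∈ V, ⟪b 0, v⟫ ≤ r := by
  rw [not_subset] at h
  obtain ⟨x, hx, hxV⟩ := h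
  obtain ⟨f, c, hf1, hf2⟩ := geometric_hahn_banach_closed_point hV hVc.isClosed hxV
  set w : E := (InnerProductSpace.toDual ℝ E).symm f with hw
  have hfw : ∀ v, f v = ⟪w, v⟫ := by
    intro v
    rw [hw, InnerProductSpace.toDual_symm_apply]
  have hw0 : w ≠ 0 := by
    intro h
    have h1 := hf1 0 h0
    rw [hfw, h, inner_zero_left] at h1
    rw [hfw, h, inner_zero_left] at hf2
    linarith
  obtain ⟨m, b, hb⟩ := exists_basis (E := E) inferInstance hw0
  refine ⟨m, b, fun v hv => ?_⟩
  have hn : 0 < ‖w‖ := norm_pos_iff.mpr hw0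
  have h1 : ⟪w, v⟫ < ⟪w, x⟫ := by
    rw [← hfw, ← hfw]; exact (hf1 v hv).trans hf2
  have h2 : ∀ z, ⟪w, z⟫ = ‖w‖ * ⟪b 0, z⟫ := by
    intro z
    conv_lhs => rw [hb]
    rw [real_inner_smul_left]
  rw [h2, h2] at h1
  have h3 : ⟪b 0, v⟫ < ⟪b 0, x⟫ := lt_of_mul_lt_mul_left h1 hn.le
  have h4 : ⟪b 0, x⟫ ≤ ‖b 0‖ * ‖x‖ := real_inner_le_norm _ _
  rw [b.norm_eq_one, one_mul] at h4
  rw [mem_closedBall_zero_iff] at hx
  linarith

/-- At least half of the mass of a centred body lies in a slab of comparable width. -/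
theorem slab_mass {V : Set E} (hVc : IsCompact V) {θ : E} {R : ℝ} (hR : 0 < R)
    (hV : ∀ v ∈ V, ⟪θ, v⟫ ≤ R) (hbar : ∫ x in V, x ∂(stdGaussian E) = 0) :
    (stdGaussian E).real V / 2 ≤ (stdGaussian E).real (V ∩ {x | -R ≤ ⟪θ, x⟫}) := by
  have hint : IntegrableOn (fun x : E => x) V (stdGaussian E) :=
    continuous_id.continuousOn.integrableOn_compact hVc
  have h1 : ∫ x in V, ⟪θ, x⟫ ∂(stdGaussian E) = 0 := by
    rw [integral_inner hint, hbar, inner_zero_right]
  have hint2 : IntegrableOn (fun x : E => ⟪θ, x⟫) V (stdGaussian E) :=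
    (by fun_prop : Continuous fun x : E => ⟪θ, x⟫).continuousOn.integrableOn_compact hVc
  set A : Set E := {x | ⟪θ, x⟫ < -R} with hA
  have hAm : MeasurableSet A := measurableSet_lt (by fun_prop) measurable_const
  have hVm : MeasurableSet V := hVc.measurableSet
  have h2 : ∫ x in V, ⟪θ, x⟫ ∂(stdGaussian E) ≤
      ∫ x in V, (R - 2 * R * A.indicator (fun _ => (1 : ℝ)) x) ∂(stdGaussian E) := by
    refine setIntegral_mono_on hint2 ?_ hVm fun x hx => ?_
    · refine (integrable_const _).sub (Integrable.const_mul ?_ _)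
      exact (integrable_const _).indicator hAm
    · by_cases hxA : x ∈ A
      · rw [indicator_of_mem hxA]
        have : ⟪θ, x⟫ < -R := hxA
        linarith
      · rw [indicator_of_notMem hxA]
        have := hV x hx
        linarith
  have h3 : ∫ x in V, (R - 2 * R * A.indicator (fun _ => (1 : ℝ)) x) ∂(stdGaussian E) =
      R * (stdGaussian E).real V - 2 * R * (stdGaussian E).real (A ∩ V) := by
    rw [integral_sub (integrable_const _)
      (Integrable.const_mul ((integrable_const _).indicator hAm) _), integral_const_mul,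
      integral_indicator hAm]
    simp only [integral_const, smul_eq_mul, mul_one]
    have e1 : ((stdGaussian E).restrict V).real univ = (stdGaussian E).real V := by
      simp
    have e2 : (((stdGaussian E).restrict V).restrict A).real univ =
        (stdGaussian E).real (A ∩ V) := by
      rw [measureReal_restrict_apply MeasurableSet.univ, univ_inter,
        measureReal_restrict_apply hAm]
    rw [e1, e2]
    ring
  rw [h1, h3] at h2
  have h4 : (stdGaussian E).real V ≤ (stdGaussian E).real (A ∩ V) +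
      (stdGaussian E).real (V ∩ {x | -R ≤ ⟪θ, x⟫}) := by
    refine (measureReal_mono ?_).trans (measureReal_union_le _ _)
    intro x hx
    rcases lt_or_ge ⟪θ, x⟫ (-R) with h | h
    · exact Or.inl ⟨h, hx⟩
    · exact Or.inr ⟨hx, h⟩
  have h5 : (stdGaussian E).real (A ∩ V) ≤ (stdGaussian E).real V / 2 := by
    have : R * (2 * (stdGaussian E).real (A ∩ V)) ≤ R * (stdGaussian E).real V := by linarith
    have := le_of_mul_le_mul_left this hR
    linarith
  linarith

end Pool.Agent.VB
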