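import Pool.Agent.Lib.MP_0ffb5f_gt.GPL

set_option autoImplicit false
open MeasureTheory Set ENNReal ProbabilityTheory

namespace Pool.Agent.VB

/-- density of the standard Gaussian -/
noncomputable abbrev ph (x : ℝ) : ℝ := gaussianPDFReal 0 1 x

theorem ph_eq (x : ℝ) : ph x = (Real.sqrt (2 * Real.pi))⁻¹ * Real.exp (-(x ^ 2) / 2) := by
  simp [ph, gaussianPDFReal]

theorem ph_pos (x : ℝ) : 0 < ph x := gaussianPDFReal_pos _ _ _ one_ne_zero

theorem ph_anti {x y : ℝ} (h : |x| ≤ |y|) : ph y ≤ ph x := by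
  rw [ph_eq, ph_eq]
  have : x ^ 2 ≤ y ^ 2 := sq_le_sq.mpr h
  gcongr

theorem sqrt_two_pi_gt : (5 / 2 : ℝ) < Real.sqrt (2 * Real.pi) := by
  rw [Real.lt_sqrt (by norm_num)]
  have := Real.pi_gt_d2
  nlinarith

theorem ph_zero_le : ph 0 ≤ 2 / 5 := by
  rw [ph_eq]
  simp only [ne_eq, OfNat.ofNat_ne_zero, not_false_eq_true, zero_pow, neg_zero, zero_div,
    Real.exp_zero, mul_one]
  rw [inv_le_comm₀ (by positivity) (by norm_num)]
  have := sqrt_two_pi_gt
  have e : ((2 : ℝ) / 5)⁻¹ = 5 / 2 := by norm_num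
  rw [e]
  exact this.le

theorem ph_le (x : ℝ) : ph x ≤ 2 / 5 := (ph_anti (by simp)).trans ph_zero_le

theorem g1_apply {s : Set ℝ} (hs : MeasurableSet s) :
    g1 s = ∫⁻ x in s, ENNReal.ofReal (ph x) := by
  rw [g1, gaussianReal_apply 0 one_ne_zero]
  rfl

/-- upper bound of the measure of an interval -/
theorem g1_Icc_le {a b M : ℝ} (h : ∀ x ∈ Icc a b, ph x ≤ M) :
    g1 (Icc a b) ≤ ENNReal.ofReal ((b - a) * M) := by
  rw [g1_apply measurableSet_Icc]
  calc ∫⁻ x in Icc a b, ENNReal.ofReal (ph x) ≤ ∫⁻ _ in Icc a b, ENNReal.ofReal M :=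
        setLIntegral_mono' measurableSet_Icc fun x hx => ENNReal.ofReal_le_ofReal (h x hx)
    _ = ENNReal.ofReal M * ENNReal.ofReal (b - a) := by
        rw [lintegral_const, Measure.restrict_apply MeasurableSet.univ, univ_inter, Real.volume_Icc]
    _ ≤ ENNReal.ofReal ((b - a) * M) := by
        rcases le_or_gt a b with hab | hab
        · have hM : 0 ≤ M := (ph_pos a).le.trans (h a ⟨le_rfl, hab⟩)
          rw [← ENNReal.ofReal_mul hM, mul_comm]
        · rw [ENNReal.ofReal_eq_zero.mpr (by linarith : b - a ≤ 0)]; simp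

theorem g1_Ico_ge {a b m : ℝ} (hab : a ≤ b) (hm : 0 ≤ m) (h : ∀ x ∈ Ico a b, m ≤ ph x) :
    ENNReal.ofReal ((b - a) * m) ≤ g1 (Ico a b) := by
  rw [g1_apply measurableSet_Ico]
  calc ENNReal.ofReal ((b - a) * m) = ∫⁻ _ in Ico a b, ENNReal.ofReal m := by
        rw [lintegral_const, Measure.restrict_apply MeasurableSet.univ, univ_inter, Real.volume_Ico,
          ← ENNReal.ofReal_mul hm, mul_comm]
    _ ≤ _ := setLIntegral_mono' measurableSet_Ico fun x hx => ENNReal.ofReal_le_ofReal (h x hx)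

theorem g1_Ioc_ge {a b m : ℝ} (hab : a ≤ b) (hm : 0 ≤ m) (h : ∀ x ∈ Ioc a b, m ≤ ph x) :
    ENNReal.ofReal ((b - a) * m) ≤ g1 (Ioc a b) := by
  rw [g1_apply measurableSet_Ioc]
  calc ENNReal.ofReal ((b - a) * m) = ∫⁻ _ in Ioc a b, ENNReal.ofReal m := by
        rw [lintegral_const, Measure.restrict_apply MeasurableSet.univ, univ_inter, Real.volume_Ioc,
          ← ENNReal.ofReal_mul hm, mul_comm]
    _ ≤ _ := setLIntegral_mono' measurableSet_Ioc fun x hx => ENNReal.ofReal_le_ofReal (h x hx)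

/-- the point of `[a,b]` nearest to zero -/
def near (a b : ℝ) : ℝ := max a (min b 0)

theorem near_mem {a b : ℝ} (hab : a ≤ b) : near a b ∈ Icc a b :=
  ⟨le_max_left _ _, max_le hab (min_le_left _ _)⟩

theorem near_le {a b y : ℝ} (hy : y ∈ Icc a b) : |near a b| ≤ |y| := by
  unfold near
  rcases le_total b 0 with hb | hb
  · rw [min_eq_left hb, max_eq_right (hy.1.trans hy.2), abs_of_nonpos hb,
      abs_of_nonpos (hy.2.trans hb)]
    linarith [hy.2]
  · rw [min_eq_right hb]
    rcases le_total a 0 with ha | ha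
    · rw [max_eq_right ha]; simp
    · rw [max_eq_left ha, abs_of_nonneg ha, abs_of_nonneg (ha.trans hy.1)]
      exact hy.1

/-- exponential bound -/
theorem ph_ratio {x z : ℝ} (hx : |x| ≤ 3 / 4) : (2 / 3) * ph z ≤ ph x := by
  have h1 : (2 / 3) * ph 0 ≤ ph x := by
    rw [ph_eq, ph_eq]
    simp only [ne_eq, OfNat.ofNat_ne_zero, not_false_eq_true, zero_pow, neg_zero, zero_div,
      Real.exp_zero, mul_one]
    have h2 : (2 / 3 : ℝ) ≤ Real.exp (-(x ^ 2) / 2) := by
      have h3 : x ^ 2 ≤ (3 / 4) ^ 2 := by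
        rw [← sq_abs x]; gcongr
      have h4 : -(x ^ 2) / 2 + 1 ≤ Real.exp (-(x ^ 2) / 2) := Real.add_one_le_exp _
      nlinarith
    rw [mul_comm]
    gcongr
  have h5 : ph z ≤ ph 0 := ph_anti (by simp)
  linarith

/-- The gain of an interval under thickening. -/
theorem gain {a b d : ℝ} (hab : a ≤ b) (hd : 0 < d) (hd' : d ≤ 1 / 20) (hL : b - a ≤ 14 * d) :
    g1 (Icc a b) + ENNReal.ofReal (2 / 3 * d * ph (near a b)) ≤ g1 (Icc (a - d) (b + d)) := by
  rcases le_total b 0 with hb | hb
  · -- interval on the negative side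
    have hn : near a b = b := by
      unfold near; rw [min_eq_left hb, max_eq_right hab]
    rw [hn]
    have h1 : ENNReal.ofReal (2 / 3 * d * ph b) ≤ g1 (Ioc b (b + d)) := by
      have e : 2 / 3 * d * ph b = (b + d - b) * (2 / 3 * ph b) := by ring
      rw [e]
      refine g1_Ioc_ge (by linarith) (by have := ph_pos b; positivity) fun x hx => ?_
      rcases le_total x 0 with hx0 | hx0
      · have h2 : ph b ≤ ph x := ph_anti (by
          rw [abs_of_nonpos hx0, abs_of_nonpos hb]; linarith [hx.1])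
        have := ph_pos b
        linarith
      · refine ph_ratio ?_
        rw [abs_of_nonneg hx0]; linarith [hx.2]
    have h2 : Icc a b ∪ Ioc b (b + d) ⊆ Icc (a - d) (b + d) := by
      rintro x (hx | hx)
      · exact ⟨by linarith [hx.1], by linarith [hx.2]⟩
      · exact ⟨by linarith [hx.1], hx.2⟩
    have h3 : Disjoint (Icc a b) (Ioc b (b + d)) := by
      rw [Set.disjoint_left]; intro x hx hx'; exact absurd hx.2 (not_le.mpr hx'.1)
    calc _ ≤ g1 (Icc a b) + g1 (Ioc b (b + d)) := by gcongr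
      _ = g1 (Icc a b ∪ Ioc b (b + d)) := (measure_union h3 measurableSet_Ioc).symm
      _ ≤ _ := measure_mono h2
  · -- other cases: use the left end
    have h1 : ENNReal.ofReal (2 / 3 * d * ph (near a b)) ≤ g1 (Ico (a - d) a) := by
      have e : 2 / 3 * d * ph (near a b) = (a - (a - d)) * (2 / 3 * ph (near a b)) := by ring
      rw [e]
      refine g1_Ico_ge (by linarith) (by have := ph_pos (near a b); positivity) fun x hx => ?_
      rcases le_total a 0 with ha | ha
      · refine ph_ratio ?_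
        rw [abs_le]
        constructor
        · have := hx.1; linarith
        · have := hx.2; linarith
      · have hn : near a b = a := by
          unfold near; rw [min_eq_right hb, max_eq_left ha]
        rw [hn]
        rcases le_total x 0 with hx0 | hx0
        · refine ph_ratio ?_
          rw [abs_of_nonpos hx0]; linarith [hx.1]
        · have h2 : ph a ≤ ph x := ph_anti (by
            rw [abs_of_nonneg hx0, abs_of_nonneg ha]; linarith [hx.2])
          have := ph_pos a
          linarith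
    have h2 : Icc a b ∪ Ico (a - d) a ⊆ Icc (a - d) (b + d) := by
      rintro x (hx | hx)
      · exact ⟨by linarith [hx.1], by linarith [hx.2]⟩
      · exact ⟨hx.1, by linarith [hx.2]⟩
    have h3 : Disjoint (Icc a b) (Ico (a - d) a) := by
      rw [Set.disjoint_left]; intro x hx hx'; exact absurd hx.1 (not_le.mpr hx'.2)
    calc _ ≤ g1 (Icc a b) + g1 (Ico (a - d) a) := by gcongr
      _ = g1 (Icc a b ∪ Ico (a - d) a) := (measure_union h3 measurableSet_Ico).symm
      _ ≤ _ := measure_mono h2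

/-- The loss of a short interval. -/
theorem loss {a b d : ℝ} (hab : a ≤ b) (hL : b - a ≤ 2 * d) :
    g1 (Icc a b) ≤ ENNReal.ofReal (2 * d * ph (near a b)) := by
  refine (g1_Icc_le (M := ph (near a b)) fun x hx => ph_anti (near_le hx)).trans ?_
  refine ENNReal.ofReal_le_ofReal ?_
  have := ph_pos (near a b)
  gcongr

theorem g1_pos_neg : g1 (Ioi 0) = g1 (Iio 0) := by
  have h := gaussianReal_map_neg (μ := 0) (v := 1)
  rw [neg_zero] at h
  calc g1 (Ioi 0) = (g1.map (fun x => -x)) (Ioi 0) := by rw [g1, h]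
    _ = g1 ((fun x => -x) ⁻¹' Ioi 0) := Measure.map_apply measurable_neg measurableSet_Ioi
    _ = g1 (Iio 0) := by congr 1; ext x; simp

theorem g1_half_pos : g1 (Ioi 0) ≤ 1 / 2 := by
  have h1 : g1 (Ioi 0) + g1 (Iio 0) ≤ 1 := by
    rw [← measure_union _ measurableSet_Iio]
    · exact prob_le_one
    · rw [Set.disjoint_left]; intro x hx hx'; exact lt_asymm (show (0:ℝ) < x from hx) hx'
  rw [← g1_pos_neg, ← two_mul] at h1
  rw [ENNReal.le_div_iff_mul_le (by norm_num) (by norm_num), mul_comm]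
  exact h1

theorem g1_half_neg : g1 (Iio 0) ≤ 1 / 2 := by rw [← g1_pos_neg]; exact g1_half_pos

/-- Intervals that are short or miss zero have measure at most one half. -/
theorem g1_Icc_half {a b : ℝ} (h : 0 ∉ Icc a b ∨ b - a ≤ 7 / 10) : g1 (Icc a b) ≤ 1 / 2 := by
  rcases h with h | h
  · rcases lt_or_ge 0 a with ha | ha
    · exact (measure_mono fun x hx => lt_of_lt_of_le ha hx.1).trans g1_half_pos
    · have hb : b < 0 := by
        by_contra hb
        push Not at hb
        exact h ⟨ha, hb⟩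
      exact (measure_mono fun x hx => lt_of_le_of_lt hx.2 hb).trans g1_half_neg
  · refine (g1_Icc_le (M := 2 / 5) fun x _ => ph_le x).trans ?_
    have : ENNReal.ofReal ((b - a) * (2 / 5)) ≤ ENNReal.ofReal (1 / 2) :=
      ENNReal.ofReal_le_ofReal (by linarith)
    refine this.trans (le_of_eq ?_)
    rw [ENNReal.ofReal_div_of_pos (by norm_num)]
    simp

end Pool.Agent.VB
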