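import Mathlib

set_option autoImplicit false
open MeasureTheory Set ENNReal ProbabilityTheory

namespace Pool.Agent.VB

/-- One-dimensional Brunn-Minkowski, midpoint form, for compact sets. -/
theorem bm_compact {A B C : Set ℝ} (hA : IsCompact A) (hB : IsCompact B) (hA' : A.Nonempty)
    (hB' : B.Nonempty) (hC : ∀ x ∈ A, ∀ y ∈ B, (x + y) / 2 ∈ C) :
    volume A + volume B ≤ 2 * volume C := by
  set M := sSup A with hM
  set m := sInf B with hm
  have hMA : M ∈ A := hA.sSup_mem hA'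
  have hmB : m ∈ B := hB.sInf_mem hB'
  have hAM : ∀ x ∈ A, x ≤ M := fun x hx => le_csSup hA.bddAbove hx
  have hBm : ∀ y ∈ B, m ≤ y := fun y hy => csInf_le hB.bddBelow hy
  set S1 : Set ℝ := (fun z => 2 * z) ⁻¹' ((fun z => z - m) ⁻¹' A) with hS1
  set S2 : Set ℝ := (fun z => 2 * z) ⁻¹' ((fun z => z - M) ⁻¹' B) with hS2
  have hsubr : ∀ (c : ℝ) (D : Set ℝ), volume ((fun z => z - c) ⁻¹' D) = volume D := by
    intro c D
    simp only [sub_eq_add_neg]
    exact measure_preimage_add_right volume (-c) D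
  have v1 : volume S1 = ENNReal.ofReal |(2 : ℝ)⁻¹| * volume A := by
    rw [hS1, Real.volume_preimage_mul_left two_ne_zero, hsubr]
  have v2 : volume S2 = ENNReal.ofReal |(2 : ℝ)⁻¹| * volume B := by
    rw [hS2, Real.volume_preimage_mul_left two_ne_zero, hsubr]
  have hmeas1 : MeasurableSet S1 :=
    measurableSet_preimage (measurable_const.mul measurable_id)
      (measurableSet_preimage (measurable_id.sub_const m) hA.measurableSet)
  have hmeas2 : MeasurableSet S2 :=
    measurableSet_preimage (measurable_const.mul measurable_id)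
      (measurableSet_preimage (measurable_id.sub_const M) hB.measurableSet)
  have hsub : S1 ∪ S2 ⊆ C := by
    rintro z (hz | hz)
    · have := hC _ hz m hmB
      have e : (2 * z - m + m) / 2 = z := by ring
      rwa [e] at this
    · have := hC M hMA _ hz
      have e : (M + (2 * z - M)) / 2 = z := by ring
      rwa [e] at this
  have hdis : AEDisjoint volume S1 S2 := by
    have : S1 ∩ S2 ⊆ {(M + m) / 2} := by
      rintro z ⟨h1, h2⟩
      have a1 : 2 * z - m ≤ M := hAM _ h1
      have a2 : m ≤ 2 * z - M := hBm _ h2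
      show z = (M + m) / 2
      linarith
    exact measure_mono_null this (by simp)
  have h1 : volume (S1 ∪ S2) = volume S1 + volume S2 :=
    measure_union₀ hmeas2.nullMeasurableSet hdis
  have h2 : volume S1 + volume S2 ≤ volume C := h1 ▸ measure_mono hsub
  rw [v1, v2, ← mul_add] at h2
  have h3 : ENNReal.ofReal |(2 : ℝ)⁻¹| = 2⁻¹ := by
    rw [abs_of_pos (by norm_num), ENNReal.ofReal_inv_of_pos (by norm_num)]
    simp
  rw [h3] at h2
  calc volume A + volume B = 2 * (2⁻¹ * (volume A + volume B)) := by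
        rw [← mul_assoc, ENNReal.mul_inv_cancel (by norm_num) (by norm_num), one_mul]
    _ ≤ 2 * volume C := by gcongr

theorem bm_meas {A B C : Set ℝ} (hA : MeasurableSet A) (hB : MeasurableSet B) (hA' : A.Nonempty)
    (hB' : B.Nonempty) (hC : ∀ x ∈ A, ∀ y ∈ B, (x + y) / 2 ∈ C) :
    volume A + volume B ≤ 2 * volume C := by
  have key : ∀ K1 : Set ℝ, K1 ⊆ A → IsCompact K1 → ∀ K2 : Set ℝ, K2 ⊆ B → IsCompact K2 →
      volume K1 + volume K2 ≤ 2 * volume C := by
    intro K1 h1 c1 K2 h2 c2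
    obtain ⟨a, ha⟩ := hA'
    obtain ⟨b, hb⟩ := hB'
    have e1 : volume K1 ≤ volume (insert a K1) := measure_mono (subset_insert _ _)
    have e2 : volume K2 ≤ volume (insert b K2) := measure_mono (subset_insert _ _)
    refine (add_le_add e1 e2).trans (bm_compact (c1.insert a) (c2.insert b) ⟨a, mem_insert _ _⟩
      ⟨b, mem_insert _ _⟩ fun x hx y hy => hC x (insert_subset ha h1 hx) y (insert_subset hb h2 hy))
  have hAe : volume A = ⨆ K : {K : Set ℝ // K ⊆ A ∧ IsCompact K}, volume (K : Set ℝ) := by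
    rw [hA.measure_eq_iSup_isCompact, iSup_subtype]
    simp only [iSup_and]
  have hBe : volume B = ⨆ K : {K : Set ℝ // K ⊆ B ∧ IsCompact K}, volume (K : Set ℝ) := by
    rw [hB.measure_eq_iSup_isCompact, iSup_subtype]
    simp only [iSup_and]
  rw [hAe, hBe]
  have : Nonempty {K : Set ℝ // K ⊆ A ∧ IsCompact K} := ⟨⟨∅, empty_subset _, isCompact_empty⟩⟩
  have : Nonempty {K : Set ℝ // K ⊆ B ∧ IsCompact K} := ⟨⟨∅, empty_subset _, isCompact_empty⟩⟩
  exact ENNReal.iSup_add_iSup_le fun K1 K2 => key K1 K1.2.1 K1.2.2 K2 K2.2.1 K2.2.2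

/-- `4xy ≤ (x+y)^2` in the extended reals. -/
theorem amgm (x y : ℝ≥0∞) : 4 * (x * y) ≤ (x + y) ^ 2 := by
  rcases eq_or_ne x ∞ with rfl | hx
  · simp
  rcases eq_or_ne y ∞ with rfl | hy
  · simp
  lift x to NNReal using hx
  lift y to NNReal using hy
  norm_cast
  have : (4 : ℝ) * (x * y) ≤ (x + y) ^ 2 := by nlinarith [sq_nonneg ((x : ℝ) - y)]
  exact_mod_cast this

/-- Prekopa-Leindler on the line, normalised bounded case. -/
theorem pl_norm {f g h : ℝ → ℝ} (hf : Measurable f) (hg : Measurable g) (hh : Measurable h)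
    (f0 : ∀ x, 0 ≤ f x) (g0 : ∀ x, 0 ≤ g x) (h0 : ∀ x, 0 ≤ h x)
    (f1 : ∀ x, f x ≤ 1) (g1 : ∀ x, g x ≤ 1)
    (fs : ∀ t, 0 < t → t < 1 → ∃ x, t < f x) (gs : ∀ t, 0 < t → t < 1 → ∃ x, t < g x)
    (H : ∀ x y t, 0 < t → t < f x → t < g y → t < h ((x + y) / 2)) :
    (∫⁻ x, ENNReal.ofReal (f x)) + (∫⁻ x, ENNReal.ofReal (g x))
      ≤ 2 * ∫⁻ x, ENNReal.ofReal (h x) := by
  rw [lintegral_eq_lintegral_meas_lt volume (Filter.Eventually.of_forall f0) hf.aemeasurable,
    lintegral_eq_lintegral_meas_lt volume (Filter.Eventually.of_forall g0) hg.aemeasurable,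
    lintegral_eq_lintegral_meas_lt volume (Filter.Eventually.of_forall h0) hh.aemeasurable,
    ← lintegral_add_left', ← lintegral_const_mul']
  · refine setLIntegral_mono' measurableSet_Ioi fun t ht => ?_
    have ht0 : 0 < t := ht
    rcases lt_or_ge t 1 with h1 | h1
    · refine bm_meas (measurableSet_lt measurable_const hf) (measurableSet_lt measurable_const hg)
        (fs t ht0 h1) (gs t ht0 h1) fun x hx y hy => H x y t ht0 hx hy
    · have e1 : {x | t < f x} = ∅ := by
        ext x; simp only [mem_ofPred_eq, mem_empty_iff_false, iff_false, not_lt]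
        exact (f1 x).trans h1
      have e2 : {x | t < g x} = ∅ := by
        ext x; simp only [mem_ofPred_eq, mem_empty_iff_false, iff_false, not_lt]
        exact (g1 x).trans h1
      rw [e1, e2]; simp
  · norm_num
  · refine (Antitone.measurable ?_).aemeasurable
    intro s t hst
    exact measure_mono fun x hx => lt_of_le_of_lt hst hx

/-- Prekopa-Leindler on the line, bounded case. -/
theorem pl_bdd {F G H : ℝ → ℝ≥0∞} (hF : Measurable F) (hG : Measurable G) (hH : Measurable H)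
    (M : ℝ≥0∞) (hM : M ≠ ∞) (FM : ∀ x, F x ≤ M) (GM : ∀ x, G x ≤ M)
    (hyp : ∀ x y, F x * G y ≤ H ((x + y) / 2) ^ 2) :
    (∫⁻ x, F x) * (∫⁻ x, G x) ≤ (∫⁻ x, H x) ^ 2 := by
  set a := ⨆ x, F x with ha
  set b := ⨆ x, G x with hb
  have haM : a ≤ M := iSup_le FM
  have hbM : b ≤ M := iSup_le GM
  have hFa : ∀ x, F x ≤ a := fun x => le_iSup F x
  have hGb : ∀ x, G x ≤ b := fun x => le_iSup G x
  rcases eq_or_ne a 0 with h0 | ha0
  · have : ∫⁻ x, F x = 0 := by
      have h1 : ∀ x, F x = 0 := fun x => le_antisymm (by rw [← h0]; exact hFa x) bot_le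
      simp [h1]
    rw [this]; simp
  rcases eq_or_ne b 0 with h0 | hb0
  · have : ∫⁻ x, G x = 0 := by
      have h1 : ∀ x, G x = 0 := fun x => le_antisymm (by rw [← h0]; exact hGb x) bot_le
      simp [h1]
    rw [this]; simp
  have haT : a ≠ ∞ := ne_top_of_le_ne_top hM haM
  have hbT : b ≠ ∞ := ne_top_of_le_ne_top hM hbM
  set α := a.toReal with hα
  set β := b.toReal with hβ
  have α0 : 0 < α := ENNReal.toReal_pos ha0 haT
  have β0 : 0 < β := ENNReal.toReal_pos hb0 hbT
  set c := Real.sqrt (α * β) with hc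
  have c0 : 0 < c := Real.sqrt_pos.mpr (mul_pos α0 β0)
  have hcc : c ^ 2 = α * β := Real.sq_sqrt (mul_pos α0 β0).le
  have hFT : ∀ x, F x ≠ ∞ := fun x => ne_top_of_le_ne_top hM (FM x)
  have hGT : ∀ x, G x ≠ ∞ := fun x => ne_top_of_le_ne_top hM (GM x)
  -- normalised functions
  set f : ℝ → ℝ := fun x => (F x).toReal / α with hf
  set g : ℝ → ℝ := fun x => (G x).toReal / β with hg
  set h : ℝ → ℝ := fun x => (min (H x) (ENNReal.ofReal c)).toReal / c with hh
  have key := pl_norm (f := f) (g := g) (h := h) (hF.ennreal_toReal.div_const _)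
    (hG.ennreal_toReal.div_const _) ((hH.min measurable_const).ennreal_toReal.div_const _)
    (fun x => by positivity) (fun x => by positivity) (fun x => by positivity)
    (fun x => by
      rw [hf]; simp only
      rw [div_le_one α0]
      exact ENNReal.toReal_mono haT (hFa x))
    (fun x => by
      rw [hg]; simp only
      rw [div_le_one β0]
      exact ENNReal.toReal_mono hbT (hGb x))
    (fun t ht0 ht => by
      have h1 : ENNReal.ofReal (t * α) < a := by
        rw [← ENNReal.ofReal_toReal haT]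
        refine (ENNReal.ofReal_lt_ofReal_iff α0).mpr ?_
        nlinarith
      obtain ⟨x, hx⟩ := lt_iSup_iff.mp h1
      refine ⟨x, ?_⟩
      rw [hf]; simp only
      rw [lt_div_iff₀ α0]
      exact (ENNReal.ofReal_lt_iff_lt_toReal (by positivity) (hFT x)).mp hx)
    (fun t ht0 ht => by
      have h1 : ENNReal.ofReal (t * β) < b := by
        rw [← ENNReal.ofReal_toReal hbT]
        refine (ENNReal.ofReal_lt_ofReal_iff β0).mpr ?_
        nlinarith
      obtain ⟨x, hx⟩ := lt_iSup_iff.mp h1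
      refine ⟨x, ?_⟩
      rw [hg]; simp only
      rw [lt_div_iff₀ β0]
      exact (ENNReal.ofReal_lt_iff_lt_toReal (by positivity) (hGT x)).mp hx)
    (fun x y t ht h1 h2 => by
      rw [hf] at h1; rw [hg] at h2
      simp only at h1 h2
      have ht1 : t < 1 := by
        refine lt_of_lt_of_le h1 ?_
        rw [div_le_one α0]
        exact ENNReal.toReal_mono haT (hFa x)
      rw [lt_div_iff₀ α0] at h1
      rw [lt_div_iff₀ β0] at h2
      rw [hh]; simp only
      rw [lt_div_iff₀ c0]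
      have hmT : min (H ((x + y) / 2)) (ENNReal.ofReal c) ≠ ∞ :=
        ne_top_of_le_ne_top ENNReal.ofReal_ne_top (min_le_right _ _)
      rw [← ENNReal.ofReal_lt_iff_lt_toReal (by positivity) hmT]
      refine lt_min ?_ ((ENNReal.ofReal_lt_ofReal_iff c0).mpr (by nlinarith))
      by_contra hcon
      push Not at hcon
      have h3 : F x * G y ≤ ENNReal.ofReal (t * c) ^ 2 := (hyp x y).trans (by gcongr)
      have h4 : (F x * G y).toReal ≤ (ENNReal.ofReal (t * c) ^ 2).toReal :=
        ENNReal.toReal_mono (by simp) h3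
      rw [ENNReal.toReal_mul, ENNReal.toReal_pow, ENNReal.toReal_ofReal (by positivity)] at h4
      have h5 : t * α * (t * β) < (F x).toReal * (G y).toReal :=
        mul_lt_mul'' h1 h2 (by positivity) (by positivity)
      have h6 : (t * c) ^ 2 = t * α * (t * β) := by rw [mul_pow, hcc]; ring
      linarith)
  -- integrals
  have eF : ∫⁻ x, ENNReal.ofReal (f x) = (ENNReal.ofReal α)⁻¹ * ∫⁻ x, F x := by
    rw [← lintegral_const_mul _ hF]
    refine lintegral_congr fun x => ?_
    rw [hf]; simp only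
    rw [div_eq_inv_mul, ENNReal.ofReal_mul (by positivity), ENNReal.ofReal_inv_of_pos α0,
      ENNReal.ofReal_toReal (hFT x)]
  have eG : ∫⁻ x, ENNReal.ofReal (g x) = (ENNReal.ofReal β)⁻¹ * ∫⁻ x, G x := by
    rw [← lintegral_const_mul _ hG]
    refine lintegral_congr fun x => ?_
    rw [hg]; simp only
    rw [div_eq_inv_mul, ENNReal.ofReal_mul (by positivity), ENNReal.ofReal_inv_of_pos β0,
      ENNReal.ofReal_toReal (hGT x)]
  have eH : ∫⁻ x, ENNReal.ofReal (h x) ≤ (ENNReal.ofReal c)⁻¹ * ∫⁻ x, H x := by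
    rw [← lintegral_const_mul _ hH]
    refine lintegral_mono fun x => ?_
    rw [hh]; simp only
    rw [div_eq_inv_mul, ENNReal.ofReal_mul (by positivity), ENNReal.ofReal_inv_of_pos c0,
      ENNReal.ofReal_toReal (ne_top_of_le_ne_top ENNReal.ofReal_ne_top (min_le_right _ _))]
    gcongr
    exact min_le_left _ _
  have k2 : (∫⁻ x, ENNReal.ofReal (f x)) * (∫⁻ x, ENNReal.ofReal (g x))
      ≤ (∫⁻ x, ENNReal.ofReal (h x)) ^ 2 := by
    have h1 := amgm (∫⁻ x, ENNReal.ofReal (f x)) (∫⁻ x, ENNReal.ofReal (g x))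
    have h2 : ((∫⁻ x, ENNReal.ofReal (f x)) + (∫⁻ x, ENNReal.ofReal (g x))) ^ 2
      ≤ (2 * ∫⁻ x, ENNReal.ofReal (h x)) ^ 2 := by gcongr
    have h3 : (2 * ∫⁻ x, ENNReal.ofReal (h x)) ^ 2 = 4 * (∫⁻ x, ENNReal.ofReal (h x)) ^ 2 := by
      rw [mul_pow]; norm_num
    rw [h3] at h2
    have h4 := h1.trans h2
    exact (ENNReal.mul_le_mul_iff_right (by norm_num) (by norm_num)).mp h4
  have k3 : (ENNReal.ofReal α)⁻¹ * (∫⁻ x, F x) * ((ENNReal.ofReal β)⁻¹ * ∫⁻ x, G x)
      ≤ ((ENNReal.ofReal c)⁻¹ * ∫⁻ x, H x) ^ 2 := by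
    rw [← eF, ← eG]
    exact k2.trans (by gcongr)
  have k4 : (ENNReal.ofReal c) ^ 2 = ENNReal.ofReal α * ENNReal.ofReal β := by
    rw [← ENNReal.ofReal_pow c0.le, hcc, ENNReal.ofReal_mul α0.le]
  have nα : ENNReal.ofReal α ≠ 0 := by simpa using α0
  have nβ : ENNReal.ofReal β ≠ 0 := by simpa using β0
  have nc : ENNReal.ofReal c ≠ 0 := by simpa using c0
  calc (∫⁻ x, F x) * (∫⁻ x, G x)
      = (ENNReal.ofReal α * ENNReal.ofReal β) *
        ((ENNReal.ofReal α)⁻¹ * (∫⁻ x, F x) * ((ENNReal.ofReal β)⁻¹ * ∫⁻ x, G x)) := by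
        have e1 := ENNReal.mul_inv_cancel nα ENNReal.ofReal_ne_top
        have e2 := ENNReal.mul_inv_cancel nβ ENNReal.ofReal_ne_top
        calc _ = 1 * (∫⁻ x, F x) * (1 * ∫⁻ x, G x) := by simp
          _ = (ENNReal.ofReal α * (ENNReal.ofReal α)⁻¹) * (∫⁻ x, F x) *
              ((ENNReal.ofReal β * (ENNReal.ofReal β)⁻¹) * ∫⁻ x, G x) := by rw [e1, e2]
          _ = _ := by ring
    _ ≤ (ENNReal.ofReal α * ENNReal.ofReal β) * ((ENNReal.ofReal c)⁻¹ * ∫⁻ x, H x) ^ 2 := by gcongr
    _ = (∫⁻ x, H x) ^ 2 := by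
        rw [← k4, ← mul_pow, ← mul_assoc, ENNReal.mul_inv_cancel nc ENNReal.ofReal_ne_top, one_mul]

/-- Prekopa-Leindler on the line (midpoint form). -/
theorem pl_one {F G H : ℝ → ℝ≥0∞} (hF : Measurable F) (hG : Measurable G) (hH : Measurable H)
    (hyp : ∀ x y, F x * G y ≤ H ((x + y) / 2) ^ 2) :
    (∫⁻ x, F x) * (∫⁻ x, G x) ≤ (∫⁻ x, H x) ^ 2 := by
  have h1 : ∀ k : ℕ, (∫⁻ x, min (F x) k) * (∫⁻ x, min (G x) k) ≤ (∫⁻ x, H x) ^ 2 := by
    intro k
    refine pl_bdd (hF.min measurable_const) (hG.min measurable_const) hH k (by simp)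
      (fun x => min_le_right _ _) (fun x => min_le_right _ _) fun x y => ?_
    refine le_trans ?_ (hyp x y)
    gcongr
    · exact min_le_left _ _
    · exact min_le_left _ _
  have hsup : ∀ {Φ : ℝ → ℝ≥0∞}, Measurable Φ →
      ∫⁻ x, Φ x = ⨆ k : ℕ, ∫⁻ x, min (Φ x) k := by
    intro Φ hΦ
    rw [← lintegral_iSup (fun k => hΦ.min measurable_const)]
    · refine lintegral_congr fun x => ?_
      apply le_antisymm
      · rw [← inf_iSup_eq, ENNReal.iSup_natCast]; simp
      · exact iSup_le fun k => min_le_left _ _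
    · intro i j hij x
      exact min_le_min le_rfl (by exact_mod_cast hij)
  rw [hsup hF, hsup hG, ENNReal.iSup_mul]
  refine iSup_le fun i => ?_
  rw [ENNReal.mul_iSup]
  refine iSup_le fun j => ?_
  refine le_trans ?_ (h1 (max i j))
  gcongr
  · exact le_max_left _ _
  · exact le_max_right _ _

end Pool.Agent.VB
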