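import Pool.Agent.Lib.MP_0ffb5f_gt.Fiber

set_option autoImplicit false
open MeasureTheory Set ENNReal ProbabilityTheory

namespace Pool.Agent.VB

variable {n : ℕ}

/-- the measure of a section -/
theorem g1_sec_le_one (K : Set (ℝ × (Fin n → ℝ))) (x : Fin n → ℝ) : g1 (sec K x) ≤ 1 := prob_le_one

theorem prod_eq_sec {K : Set (ℝ × (Fin n → ℝ))} (hK : MeasurableSet K) :
    (g1.prod (gp n)) K = ∫⁻ x, g1 (sec K x) ∂(gp n) := Measure.prod_apply_symm hK

/-- fibres over which the section is long and contains the origin -/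
def AA (K : Set (ℝ × (Fin n → ℝ))) (l : ℝ) : Set (Fin n → ℝ) := {x | (0, x) ∈ K} ∩ EE K l

theorem AA_meas {K : Set (ℝ × (Fin n → ℝ))} (hKc : IsCompact K) (l : ℝ) :
    MeasurableSet (AA K l) := by
  refine MeasurableSet.inter ?_ (EE_meas hKc l)
  exact (hKc.isClosed.preimage (by fun_prop : Continuous fun x : Fin n → ℝ => ((0 : ℝ), x))).measurableSet

theorem AA_ge {K : Set (ℝ × (Fin n → ℝ))} (hKc : IsCompact K) (hK : Convex ℝ K)
    (hm : 3 / 4 ≤ (g1.prod (gp n)) K) {l : ℝ} (hl : 0 ≤ l) (hl' : l ≤ 7 / 10) :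
    1 / 2 ≤ gp n (AA K l) := by
  have hA := AA_meas hKc l
  have h1 : (g1.prod (gp n)) K ≤ gp n (AA K l) + 1 / 2 * gp n (AA K l)ᶜ := by
    rw [prod_eq_sec hKc.measurableSet, ← lintegral_add_compl _ hA]
    refine add_le_add ?_ ?_
    · calc ∫⁻ x in AA K l, g1 (sec K x) ∂(gp n) ≤ ∫⁻ _ in AA K l, 1 ∂(gp n) :=
            lintegral_mono fun x => g1_sec_le_one K x
        _ = _ := by simp
    · calc ∫⁻ x in (AA K l)ᶜ, g1 (sec K x) ∂(gp n) ≤ ∫⁻ _ in (AA K l)ᶜ, 1 / 2 ∂(gp n) := by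
            refine setLIntegral_mono' hA.compl fun x hx => ?_
            by_cases h0 : x ∈ EE K 0
            · rw [sec_eq hKc hK h0]
              refine g1_Icc_half ?_
              by_contra hcon
              push Not at hcon
              refine hx ⟨?_, ?_⟩
              · have : (0 : ℝ) ∈ sec K x := by rw [sec_eq hKc hK h0]; exact hcon.1
                exact this
              · rw [mem_EE hKc hK hl]
                exact ⟨h0, hl'.trans hcon.2.le⟩
            · rw [mem_EE_zero, not_nonempty_iff_eq_empty] at h0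
              rw [h0]; simp
        _ = _ := by simp
  have h2 : gp n (AA K l)ᶜ = 1 - gp n (AA K l) := prob_compl_eq_one_sub hA
  have ha1 : gp n (AA K l) ≤ 1 := prob_le_one
  have ha2 : gp n (AA K l) ≠ ⊤ := measure_ne_top _ _
  rw [h2] at h1
  have h3 := hm.trans h1
  generalize gp n (AA K l) = a at *
  by_contra hcon
  push Not at hcon
  have hcon' : a.toReal < ((1 : ℝ≥0∞) / 2).toReal := by
    rw [ENNReal.toReal_lt_toReal (by finiteness) (by norm_num)]; exact hcon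
  have h4 := ENNReal.toReal_mono (by finiteness) h3
  rw [ENNReal.toReal_add (by finiteness) (by finiteness), ENNReal.toReal_mul,
    ENNReal.toReal_sub_of_le ha1 (by finiteness)] at h4
  simp at h4 hcon'
  norm_num at h4 hcon'
  linarith

/-- integrated comparison -/
theorem weight_compare {K : Set (ℝ × (Fin n → ℝ))} (hKc : IsCompact K) (hK : Convex ℝ K)
    (hm : 3 / 4 ≤ (g1.prod (gp n)) K) {e : ℝ} (he : 0 ≤ e) (he' : e ≤ 1 / 10) :
    ∫⁻ x in EE K 0 \ EE K e, ENNReal.ofReal (WW K x) ∂(gp n) ≤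
      3⁻¹ * ∫⁻ x in EE K e \ EE K (7 * e), ENNReal.ofReal (WW K x) ∂(gp n) := by
  have hmeas := WW_meas hKc hK
  rw [lintegral_eq_lintegral_meas_lt _ (Filter.Eventually.of_forall fun x => (WW_pos K x).le)
      hmeas.aemeasurable,
    lintegral_eq_lintegral_meas_lt _ (Filter.Eventually.of_forall fun x => (WW_pos K x).le)
      hmeas.aemeasurable, ← lintegral_const_mul']
  swap
  · norm_num
  refine lintegral_mono fun t => ?_
  have hset : MeasurableSet {x | t < WW K x} := measurableSet_lt measurable_const hmeas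
  rw [Measure.restrict_apply hset, Measure.restrict_apply hset]
  have e1 : {x | t < WW K x} ∩ (EE K 0 \ EE K e) = QQ K t ∩ (EE K 0 \ EE K e) := by
    ext x; simp only [mem_inter_iff, Set.mem_sdiff, QQ, Set.mem_ofPred_eq]; tauto
  have e2 : {x | t < WW K x} ∩ (EE K e \ EE K (7 * e)) = QQ K t ∩ (EE K e \ EE K (7 * e)) := by
    ext x; simp only [mem_inter_iff, Set.mem_sdiff, QQ, Set.mem_ofPred_eq]
    have := EE_anti hKc hK le_rfl he
    constructor
    · rintro ⟨h1, h2, h3⟩; exact ⟨⟨this h2, h1⟩, h2, h3⟩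
    · rintro ⟨⟨_, h1⟩, h2, h3⟩; exact ⟨h1, h2, h3⟩
  rw [e1, e2]
  rcases lt_or_ge t (ph 0) with ht | ht
  · refine level_compare hKc hK he ?_
    refine (AA_ge hKc hK hm (l := 7 * e) (by positivity) (by linarith)).trans (measure_mono ?_)
    rintro x ⟨h0, h7⟩
    have hx0 : x ∈ EE K 0 := mem_EE_zero.mpr ⟨0, h0⟩
    exact ⟨⟨hx0, (WW_gt hKc hK hx0).mpr ⟨0, h0, ht⟩⟩, h7⟩
  · have : QQ K t = ∅ := by
      rw [eq_empty_iff_forall_notMem]
      rintro x ⟨_, hx⟩
      have : WW K x ≤ ph 0 := ph_anti (by simp)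
      linarith
    rw [this]; simp

/-- the operation of Banaszczyk in the first coordinate -/
def starP (K : Set (ℝ × (Fin n → ℝ))) (d : ℝ) : Set (ℝ × (Fin n → ℝ)) :=
  {p | p.2 ∈ EE K (2 * d) ∧ ∃ s ∈ Icc (-d) d, (p.1 + s, p.2) ∈ K}

theorem sec_starP {K : Set (ℝ × (Fin n → ℝ))} (hKc : IsCompact K) (hK : Convex ℝ K) {d : ℝ}
    (hd : 0 ≤ d) {x : Fin n → ℝ} (hx : x ∈ EE K (2 * d)) :
    sec (starP K d) x = Icc (lo K x - d) (hi K x + d) := by
  have hx0 := EE_anti hKc hK le_rfl (by positivity) hx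
  have e := sec_eq hKc hK hx0
  have hlh := lo_le_hi hKc hx0
  ext y
  constructor
  · rintro ⟨_, s, hs, h⟩
    have h' : y + s ∈ sec K x := h
    rw [e] at h'
    constructor <;> linarith [hs.1, hs.2, h'.1, h'.2]
  · rintro ⟨h1, h2⟩
    have key : ∃ s ∈ Icc (-d) d, y + s ∈ sec K x := by
      rw [e]
      refine ⟨max (lo K x - y) (min (hi K x - y) 0), ⟨?_, ?_⟩, ?_, ?_⟩
      · refine le_max_of_le_right (le_min ?_ ?_) <;> linarith
      · refine max_le ?_ (min_le_of_right_le hd); linarith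
      · have := le_max_left (lo K x - y) (min (hi K x - y) 0); linarith
      · have : max (lo K x - y) (min (hi K x - y) 0) ≤ hi K x - y :=
          max_le (by linarith) (min_le_left _ _)
        linarith
    obtain ⟨s, hs, h⟩ := key
    exact ⟨hx, s, hs, h⟩

theorem sec_meas {K : Set (ℝ × (Fin n → ℝ))} (hK : MeasurableSet K) :
    Measurable fun x => g1 (sec K x) := measurable_measure_prodMk_right hK

theorem starP_ge {K : Set (ℝ × (Fin n → ℝ))} (hKc : IsCompact K) (hK : Convex ℝ K)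
    (hm : 3 / 4 ≤ (g1.prod (gp n)) K) {d : ℝ} (hd : 0 < d) (hd' : d ≤ 1 / 20)
    (hS : MeasurableSet (starP K d)) :
    (g1.prod (gp n)) K ≤ (g1.prod (gp n)) (starP K d) := by
  rw [prod_eq_sec hKc.measurableSet, prod_eq_sec hS]
  set E0 := EE K 0
  set E1 := EE K (2 * d)
  set E7 := EE K (7 * (2 * d))
  have h01 : E1 ⊆ E0 := EE_anti hKc hK le_rfl (by positivity)
  have h17 : E7 ⊆ E1 := EE_anti hKc hK (by positivity) (by linarith)
  have m0 : MeasurableSet E0 := EE_meas hKc _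
  have m1 : MeasurableSet E1 := EE_meas hKc _
  have m7 : MeasurableSet E7 := EE_meas hKc _
  have hmeas := WW_meas hKc hK
  -- three parts
  have p0 : ∀ f : (Fin n → ℝ) → ℝ≥0∞, ∫⁻ x, f x ∂(gp n) =
      ∫⁻ x in E0ᶜ, f x ∂(gp n) + (∫⁻ x in E0 \ E1, f x ∂(gp n) + (∫⁻ x in E1 \ E7, f x ∂(gp n) +
        ∫⁻ x in E7, f x ∂(gp n))) := by
    intro f
    rw [← lintegral_add_compl f m0, add_comm]
    congr 1
    rw [← lintegral_inter_add_sdiff f E0 m1, inter_eq_right.mpr h01, add_comm]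
    congr 1
    rw [← lintegral_inter_add_sdiff f E1 m7, inter_eq_right.mpr h17, add_comm]
  rw [p0 fun x => g1 (sec K x), p0 fun x => g1 (sec (starP K d) x)]
  have q0 : ∫⁻ x in E0ᶜ, g1 (sec K x) ∂(gp n) = 0 := by
    rw [setLIntegral_congr_fun m0.compl (g := fun _ => 0)]
    · simp
    · intro x hx
      have hx' : ¬ (x ∈ EE K 0) := hx
      rw [mem_EE_zero, not_nonempty_iff_eq_empty] at hx'
      simp only [hx', measure_empty]
  have q1 : ∫⁻ x in E0 \ E1, g1 (sec K x) ∂(gp n) ≤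
      ∫⁻ x in E1 \ E7, ENNReal.ofReal (2 / 3 * d * WW K x) ∂(gp n) := by
    calc ∫⁻ x in E0 \ E1, g1 (sec K x) ∂(gp n) ≤
          ∫⁻ x in E0 \ E1, ENNReal.ofReal (2 * d) * ENNReal.ofReal (WW K x) ∂(gp n) := by
          refine setLIntegral_mono' (m0.diff m1) fun x hx => ?_
          rw [← ENNReal.ofReal_mul (by positivity), sec_eq hKc hK hx.1]
          refine loss (lo_le_hi hKc hx.1) ?_
          by_contra hcon
          push Not at hcon
          exact hx.2 ((mem_EE hKc hK (by positivity)).mpr ⟨hx.1, hcon.le⟩)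
      _ = ENNReal.ofReal (2 * d) * ∫⁻ x in E0 \ E1, ENNReal.ofReal (WW K x) ∂(gp n) := by
          rw [lintegral_const_mul' _ _ (by finiteness)]
      _ ≤ ENNReal.ofReal (2 * d) * (3⁻¹ * ∫⁻ x in E1 \ E7, ENNReal.ofReal (WW K x) ∂(gp n)) := by
          gcongr
          exact weight_compare hKc hK hm (by positivity) (by linarith)
      _ = ∫⁻ x in E1 \ E7, ENNReal.ofReal (2 / 3 * d * WW K x) ∂(gp n) := by
          rw [← mul_assoc, ← lintegral_const_mul' _ _ (by finiteness)]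
          refine lintegral_congr fun x => ?_
          have e3 : (3⁻¹ : ℝ≥0∞) = ENNReal.ofReal (1 / 3) := by
            rw [one_div, ENNReal.ofReal_inv_of_pos (by norm_num)]; simp
          rw [e3, ← ENNReal.ofReal_mul (by positivity), ← ENNReal.ofReal_mul (by positivity)]
          congr 1; ring
  have q2 : ∫⁻ x in E1 \ E7, g1 (sec K x) ∂(gp n) +
      ∫⁻ x in E1 \ E7, ENNReal.ofReal (2 / 3 * d * WW K x) ∂(gp n) ≤
      ∫⁻ x in E1 \ E7, g1 (sec (starP K d) x) ∂(gp n) := by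
    rw [← lintegral_add_left (sec_meas hKc.measurableSet)]
    refine setLIntegral_mono' (m1.diff m7) fun x hx => ?_
    rw [sec_starP hKc hK hd.le hx.1, sec_eq hKc hK (h01 hx.1)]
    refine gain (lo_le_hi hKc (h01 hx.1)) hd hd' ?_
    by_contra hcon
    push Not at hcon
    exact hx.2 ((mem_EE hKc hK (by positivity)).mpr ⟨h01 hx.1, by linarith⟩)
  have q3 : ∫⁻ x in E7, g1 (sec K x) ∂(gp n) ≤ ∫⁻ x in E7, g1 (sec (starP K d) x) ∂(gp n) := by
    refine setLIntegral_mono' m7 fun x hx => ?_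
    rw [sec_starP hKc hK hd.le (h17 hx), sec_eq hKc hK (h01 (h17 hx))]
    exact measure_mono (Icc_subset_Icc (by linarith) (by linarith))
  rw [q0, zero_add]
  calc ∫⁻ x in E0 \ E1, g1 (sec K x) ∂(gp n) + (∫⁻ x in E1 \ E7, g1 (sec K x) ∂(gp n) +
        ∫⁻ x in E7, g1 (sec K x) ∂(gp n))
      ≤ ∫⁻ x in E1 \ E7, ENNReal.ofReal (2 / 3 * d * WW K x) ∂(gp n) +
        (∫⁻ x in E1 \ E7, g1 (sec K x) ∂(gp n) + ∫⁻ x in E7, g1 (sec K x) ∂(gp n)) := by gcongr
    _ = (∫⁻ x in E1 \ E7, g1 (sec K x) ∂(gp n) +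
        ∫⁻ x in E1 \ E7, ENNReal.ofReal (2 / 3 * d * WW K x) ∂(gp n)) +
        ∫⁻ x in E7, g1 (sec K x) ∂(gp n) := by ring
    _ ≤ ∫⁻ x in E1 \ E7, g1 (sec (starP K d) x) ∂(gp n) +
        ∫⁻ x in E7, g1 (sec (starP K d) x) ∂(gp n) := add_le_add q2 q3
    _ ≤ ∫⁻ x in E0 \ E1, g1 (sec (starP K d) x) ∂(gp n) +
        (∫⁻ x in E1 \ E7, g1 (sec (starP K d) x) ∂(gp n) +
        ∫⁻ x in E7, g1 (sec (starP K d) x) ∂(gp n)) := le_add_self
    _ ≤ _ := le_add_self

end Pool.Agent.VB
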