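import Pool.Agent.Lib.MP_0ffb5f_gt.Star

set_option autoImplicit false
open MeasureTheory Set ENNReal ProbabilityTheory

namespace Pool.Agent.VB

variable {E : Type*} [NormedAddCommGroup E] [InnerProductSpace ℝ E] [FiniteDimensional ℝ E]
  [MeasurableSpace E] [BorelSpace E] {m : ℕ}

/-- coordinates adapted to an orthonormal basis -/
noncomputable def PhiM (b : OrthonormalBasis (Fin (m + 1)) ℝ E) (p : ℝ × (Fin m → ℝ)) : E :=
  p.1 • b 0 + ∑ i, p.2 i • b i.succ

noncomputable def PsiM (b : OrthonormalBasis (Fin (m + 1)) ℝ E) (v : E) : ℝ × (Fin m → ℝ) :=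
  (b.repr v 0, fun i => b.repr v i.succ)

omit [FiniteDimensional ℝ E] [MeasurableSpace E] [BorelSpace E] in
theorem PhiM_cont (b : OrthonormalBasis (Fin (m + 1)) ℝ E) : Continuous (PhiM b) := by
  unfold PhiM; fun_prop

omit [FiniteDimensional ℝ E] [MeasurableSpace E] [BorelSpace E] in
theorem PsiM_cont (b : OrthonormalBasis (Fin (m + 1)) ℝ E) : Continuous (PsiM b) := by
  unfold PsiM; fun_prop

omit [FiniteDimensional ℝ E] [MeasurableSpace E] [BorelSpace E] in
theorem Phi_Psi (b : OrthonormalBasis (Fin (m + 1)) ℝ E) (v : E) : PhiM b (PsiM b v) = v := by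
  have := b.sum_repr v
  rw [Fin.sum_univ_succ] at this
  exact this

omit [FiniteDimensional ℝ E] [MeasurableSpace E] [BorelSpace E] in
theorem Psi_Phi (b : OrthonormalBasis (Fin (m + 1)) ℝ E) (p : ℝ × (Fin m → ℝ)) :
    PsiM b (PhiM b p) = p := by
  have h : PhiM b p = b.repr.symm (WithLp.toLp 2 (Fin.cons p.1 p.2)) := by
    rw [← b.sum_repr_symm, Fin.sum_univ_succ]
    rfl
  rw [PsiM, h, LinearIsometryEquiv.apply_symm_apply]
  rfl

omit [FiniteDimensional ℝ E] [MeasurableSpace E] [BorelSpace E] in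
theorem PhiM_comb (b : OrthonormalBasis (Fin (m + 1)) ℝ E) (p q : ℝ × (Fin m → ℝ)) (s t : ℝ) :
    PhiM b (s • p + t • q) = s • PhiM b p + t • PhiM b q := by
  simp only [PhiM, Prod.fst_add, Prod.smul_fst, Prod.snd_add, Prod.smul_snd, Pi.add_apply,
    Pi.smul_apply, smul_eq_mul, smul_add, Finset.smul_sum, add_smul, mul_smul,
    Finset.sum_add_distrib]
  abel

omit [FiniteDimensional ℝ E] [MeasurableSpace E] [BorelSpace E] in
theorem PhiM_shift (b : OrthonormalBasis (Fin (m + 1)) ℝ E) (y s : ℝ) (x : Fin m → ℝ) :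
    PhiM b (y + s, x) = PhiM b (y, x) + s • b 0 := by
  simp only [PhiM, add_smul]
  abel

theorem map_Phi (b : OrthonormalBasis (Fin (m + 1)) ℝ E) :
    (g1.prod (gp m)).map (PhiM b) = stdGaussian E := by
  rw [stdGaussian_eq_map_pi_orthonormalBasis b]
  have h := measurePreserving_piFinSuccAbove (fun _ : Fin (m + 1) => g1) 0
  have e : (fun x : Fin (m + 1) → ℝ => ∑ i, x i • b i) =
      PhiM b ∘ (MeasurableEquiv.piFinSuccAbove (fun _ => ℝ) 0) := by
    funext x
    rw [Fin.sum_univ_succ]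
    rfl
  rw [e, ← Measure.map_map (PhiM_cont b).measurable (MeasurableEquiv.measurable _)]
  congr 1
  exact h.map_eq.symm

theorem gauss_eq (b : OrthonormalBasis (Fin (m + 1)) ℝ E) {K : Set E} (hK : MeasurableSet K) :
    stdGaussian E K = (g1.prod (gp m)) (PhiM b ⁻¹' K) := by
  rw [← map_Phi b, Measure.map_apply (PhiM_cont b).measurable hK]

omit [FiniteDimensional ℝ E] [MeasurableSpace E] [BorelSpace E] in
theorem preimage_eq_image (b : OrthonormalBasis (Fin (m + 1)) ℝ E) (K : Set E) :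
    PhiM b ⁻¹' K = PsiM b '' K := by
  ext p
  constructor
  · intro hp; exact ⟨PhiM b p, hp, Psi_Phi b p⟩
  · rintro ⟨v, hv, rfl⟩
    show PhiM b (PsiM b v) ∈ K
    rw [Phi_Psi]; exact hv

omit [FiniteDimensional ℝ E] [MeasurableSpace E] [BorelSpace E] in
theorem preimage_compact (b : OrthonormalBasis (Fin (m + 1)) ℝ E) {K : Set E} (hK : IsCompact K) :
    IsCompact (PhiM b ⁻¹' K) := by
  rw [preimage_eq_image]; exact hK.image (PsiM_cont b)

omit [FiniteDimensional ℝ E] [MeasurableSpace E] [BorelSpace E] in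
theorem preimage_convex (b : OrthonormalBasis (Fin (m + 1)) ℝ E) {K : Set E} (hK : Convex ℝ K) :
    Convex ℝ (PhiM b ⁻¹' K) := by
  intro p hp q hq s t hs ht hst
  show PhiM b (s • p + t • q) ∈ K
  rw [PhiM_comb]
  exact hK hp hq hs ht hst

/-- The operation of Banaszczyk. -/
def starE (K : Set E) (u : E) : Set E :=
  {z | (∃ s : ℝ, z + s • u ∈ K ∧ z + (s + 2) • u ∈ K) ∧ ∃ s ∈ Icc (-1 : ℝ) 1, z + s • u ∈ K}

omit [FiniteDimensional ℝ E] [MeasurableSpace E] [BorelSpace E] in
theorem starE_convex {K : Set E} (hK : Convex ℝ K) (u : E) : Convex ℝ (starE K u) := by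
  rintro z ⟨⟨s, hs1, hs2⟩, s0, hs0, h0⟩ z' ⟨⟨s', hs1', hs2'⟩, s0', hs0', h0'⟩ a b ha hb hab
  refine ⟨⟨a * s + b * s', ?_, ?_⟩, a * s0 + b * s0', ?_, ?_⟩
  · have := hK hs1 hs1' ha hb hab
    convert this using 1
    simp only [smul_add, add_smul, mul_smul]; abel
  · have := hK hs2 hs2' ha hb hab
    have e : a * s + b * s' + 2 = a * (s + 2) + b * (s' + 2) := by linear_combination (-2) * hab
    rw [e]
    convert this using 1
    simp only [smul_add, add_smul, mul_smul]; abel
  · exact convex_Icc (-1 : ℝ) 1 hs0 hs0' ha hb hab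
  · have := hK h0 h0' ha hb hab
    convert this using 1
    simp only [smul_add, add_smul, mul_smul]; abel

omit [FiniteDimensional ℝ E] [MeasurableSpace E] [BorelSpace E] in
theorem line_mem {K : Set E} (hK : Convex ℝ K) {z u : E} {s t r : ℝ} (hs : z + s • u ∈ K)
    (ht : z + t • u ∈ K) (h1 : s ≤ r) (h2 : r ≤ t) : z + r • u ∈ K := by
  rcases eq_or_lt_of_le (h1.trans h2) with h | h
  · have : r = s := le_antisymm (h2.trans h.ge) h1
    rw [this]; exact hs
  · have hpos : 0 < t - s := sub_pos.mpr h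
    have := hK hs ht (a := (t - r) / (t - s)) (b := (r - s) / (t - s))
      (by apply div_nonneg <;> linarith) (by apply div_nonneg <;> linarith)
      (by field_simp; ring)
    have e : ((t - r) / (t - s)) • (z + s • u) + ((r - s) / (t - s)) • (z + t • u) = z + r • u := by
      simp only [smul_add, smul_smul]
      have e1 : (t - r) / (t - s) + (r - s) / (t - s) = 1 := by field_simp; ring
      have e2 : (t - r) / (t - s) * s + (r - s) / (t - s) * t = r := by field_simp; ring
      calc _ = ((t - r) / (t - s) + (r - s) / (t - s)) • z +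
            ((t - r) / (t - s) * s + (r - s) / (t - s) * t) • u := by
            simp only [add_smul]; abel
        _ = _ := by rw [e1, e2, one_smul]
    rwa [e] at this

omit [FiniteDimensional ℝ E] [MeasurableSpace E] [BorelSpace E] in
theorem starE_sub {K : Set E} (hK : Convex ℝ K) {u z : E} (hz : z ∈ starE K u) :
    z + u ∈ K ∨ z - u ∈ K := by
  obtain ⟨⟨s, h1, h2⟩, s0, hs0, h0⟩ := hz
  have e1 : z + (1 : ℝ) • u = z + u := by rw [one_smul]
  have e2 : z + (-1 : ℝ) • u = z - u := by rw [neg_smul, one_smul, sub_eq_add_neg]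
  rw [← e1, ← e2]
  rcases le_total s (-1) with h | h
  · right
    rcases le_total (s + 2) 1 with h' | h'
    · rcases le_total (-1) (s + 2) with h'' | h''
      · exact line_mem hK h1 h2 h h''
      · exact line_mem hK h1 h0 h hs0.1
    · exact line_mem hK h1 h2 h (by linarith)
  · left
    rcases le_total s 1 with h' | h'
    · exact line_mem hK h1 h2 h' (by linarith)
    · exact line_mem hK h0 h1 hs0.2 h'

omit [FiniteDimensional ℝ E] [MeasurableSpace E] [BorelSpace E] in
/-- In adapted coordinates the general operation is the operation in the first coordinate. -/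
theorem star_coord (b : OrthonormalBasis (Fin (m + 1)) ℝ E) (K : Set E) {u : E} {d : ℝ}
    (hd : 0 < d) (hu : u = d • b 0) : PhiM b ⁻¹' (starE K u) = starP (PhiM b ⁻¹' K) d := by
  subst hu
  have key : ∀ (y s : ℝ) (x : Fin m → ℝ), PhiM b (y, x) + s • d • b 0 = PhiM b (y + s * d, x) := by
    intro y s x; rw [PhiM_shift, mul_smul]
  ext ⟨y, x⟩
  constructor
  · rintro ⟨⟨s, h1, h2⟩, s0, hs0, h0⟩
    rw [key] at h1 h2 h0
    refine ⟨⟨y + s * d, h1, ?_⟩, s0 * d, ?_, h0⟩
    · have e : y + (s + 2) * d = y + s * d + 2 * d := by ring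
      rw [e] at h2; exact h2
    · constructor <;> nlinarith [hs0.1, hs0.2]
  · rintro ⟨⟨y', h1, h2⟩, s0, hs0, h0⟩
    refine ⟨⟨(y' - y) / d, ?_, ?_⟩, s0 / d, ?_, ?_⟩
    · rw [key]
      have e : y + (y' - y) / d * d = y' := by field_simp; ring
      rw [e]; exact h1
    · rw [key]
      have e : y + ((y' - y) / d + 2) * d = y' + 2 * d := by field_simp; ring
      rw [e]; exact h2
    · constructor
      · rw [le_div_iff₀ hd]; linarith [hs0.1]
      · rw [div_le_iff₀ hd]; linarith [hs0.2]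
    · rw [key]
      have e : y + s0 / d * d = y + s0 := by field_simp
      rw [e]; exact h0

theorem starP_compact {K : Set (ℝ × (Fin m → ℝ))} (hK : IsCompact K) (d : ℝ) :
    IsCompact (starP K d) := by
  have e : starP K d = (fun q : ℝ × (ℝ × (Fin m → ℝ)) => (q.2.1 - q.1, q.2.2)) ''
      (Icc (-d) d ×ˢ K) ∩ Prod.snd ⁻¹' (EE K (2 * d)) := by
    ext ⟨y, x⟩
    constructor
    · rintro ⟨h, s, hs, h'⟩
      refine ⟨⟨(s, (y + s, x)), ⟨hs, h'⟩, ?_⟩, h⟩
      show (y + s - s, x) = (y, x)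
      rw [add_sub_cancel_right]
    · rintro ⟨⟨⟨s, ⟨y', x'⟩⟩, ⟨hs, h'⟩, he⟩, h⟩
      have e1 : y' - s = y := congrArg Prod.fst he
      have e2 : x' = x := congrArg Prod.snd he
      subst e2
      refine ⟨h, s, hs, ?_⟩
      show (y + s, x') ∈ K
      rw [← e1, sub_add_cancel]; exact h'
  rw [e]
  refine ((isCompact_Icc.prod hK).image (by fun_prop)).inter_right ?_
  exact (EE_compact hK _).isClosed.preimage continuous_snd

omit [FiniteDimensional ℝ E] [MeasurableSpace E] [BorelSpace E] in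
/-- existence of adapted bases -/
theorem exists_basis (hfin : FiniteDimensional ℝ E) {u : E} (hu : u ≠ 0) :
    ∃ (m : ℕ) (b : OrthonormalBasis (Fin (m + 1)) ℝ E), u = ‖u‖ • b 0 := by
  have hpos : 0 < Module.finrank ℝ E := by
    rw [Module.finrank_pos_iff_exists_ne_zero]; exact ⟨u, hu⟩
  obtain ⟨m, hm⟩ := Nat.exists_eq_succ_of_ne_zero hpos.ne'
  have hn : 0 < ‖u‖ := norm_pos_iff.mpr hu
  set v : Fin (m + 1) → E := fun _ => (‖u‖⁻¹ : ℝ) • u with hv
  have ho : Orthonormal ℝ (({0} : Set (Fin (m + 1))).domRestrict v) := by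
    refine ⟨fun i => ?_, fun i j hij => ?_⟩
    · show ‖(‖u‖⁻¹ : ℝ) • u‖ = 1
      rw [norm_smul, norm_inv, norm_norm, inv_mul_cancel₀ hn.ne']
    · exact absurd (Subsingleton.elim i j) hij
  obtain ⟨b, hb⟩ := ho.exists_orthonormalBasis_extension_of_card_eq (by rw [hm]; simp)
  refine ⟨m, b, ?_⟩
  rw [hb 0 rfl, hv, smul_smul, mul_inv_cancel₀ hn.ne', one_smul]

theorem starE_compact {K : Set E} (hKc : IsCompact K) {u : E} (hu : u ≠ 0) :
    IsCompact (starE K u) := by
  obtain ⟨m, b, hb⟩ := exists_basis (E := E) inferInstance hu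
  have hn : 0 < ‖u‖ := norm_pos_iff.mpr hu
  have h := star_coord b K hn hb
  have h1 : PhiM b '' (PhiM b ⁻¹' (starE K u)) = starE K u :=
    image_preimage_eq _ fun v => ⟨PsiM b v, Phi_Psi b v⟩
  rw [← h1, h]
  exact (starP_compact (preimage_compact b hKc) _).image (PhiM_cont b)

theorem starE_ge {K : Set E} (hKc : IsCompact K) (hK : Convex ℝ K) (hm : 3 / 4 ≤ stdGaussian E K)
    {u : E} (hu : u ≠ 0) (hu' : ‖u‖ ≤ 1 / 20) : 3 / 4 ≤ stdGaussian E (starE K u) := by
  obtain ⟨m, b, hb⟩ := exists_basis (E := E) inferInstance hu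
  have hn : 0 < ‖u‖ := norm_pos_iff.mpr hu
  rw [gauss_eq b (starE_compact hKc hu).measurableSet, star_coord b K hn hb]
  rw [gauss_eq b hKc.measurableSet] at hm
  have hc := preimage_compact b hKc
  exact hm.trans (starP_ge hc (preimage_convex b hK) hm hn hu' (starP_compact hc _).measurableSet)

theorem zero_mem {K : Set E} (hKc : IsCompact K) (hK : Convex ℝ K) (hm : 3 / 4 ≤ stdGaussian E K) :
    (0 : E) ∈ K := by
  by_contra h0
  obtain ⟨f, c, hf1, hf2⟩ := geometric_hahn_banach_point_closed hK hKc.isClosed h0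
  rw [map_zero] at hf1
  have hneg : stdGaussian E ((fun x => -x) ⁻¹' K) = stdGaussian E K := by
    have := stdGaussian_map (LinearIsometryEquiv.neg ℝ (E := E))
    conv_rhs => rw [← this]
    rw [Measure.map_apply (LinearIsometryEquiv.neg ℝ).continuous.measurable hKc.measurableSet]
    rfl
  have hd : Disjoint K ((fun x => -x) ⁻¹' K) := by
    rw [Set.disjoint_left]
    intro x hx hx'
    have h1 := hf2 x hx
    have h2 := hf2 (-x) hx'
    rw [map_neg] at h2
    linarith
  have h2 : stdGaussian E (K ∪ (fun x => -x) ⁻¹' K) = stdGaussian E K + stdGaussian E K := by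
    rw [measure_union hd (hKc.measurableSet.preimage measurable_neg), hneg]
  have h3 : stdGaussian E K + stdGaussian E K ≤ 1 := by rw [← h2]; exact prob_le_one
  have h4 : (3 / 4 : ℝ≥0∞) + 3 / 4 ≤ 1 := (add_le_add hm hm).trans h3
  have h5 := ENNReal.toReal_mono (by norm_num) h4
  rw [ENNReal.toReal_add (by finiteness) (by finiteness)] at h5
  norm_num at h5

/-- A weak form of the theorem of Banaszczyk. -/
theorem weak_banaszczyk (N : ℕ) : ∀ (u : Fin N → E), (∀ i, ‖u i‖ ≤ 1 / 20) → ∀ (K : Set E),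
    IsCompact K → Convex ℝ K → 3 / 4 ≤ stdGaussian E K →
    ∃ ε : Fin N → ℤˣ, ∑ i, (ε i : ℤ) • u i ∈ K := by
  induction N with
  | zero =>
    intro u _ K hKc hK hm
    exact ⟨fun _ => 1, by simpa using zero_mem hKc hK hm⟩
  | succ N ih =>
    intro u hu K hKc hK hm
    by_cases h0 : u 0 = 0
    · obtain ⟨ε, hε⟩ := ih (fun i => u i.succ) (fun i => hu _) K hKc hK hm
      refine ⟨Fin.cons 1 ε, ?_⟩
      rw [Fin.sum_univ_succ]
      simpa [h0] using hε
    · obtain ⟨ε, hε⟩ := ih (fun i => u i.succ) (fun i => hu _) (starE K (u 0))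
        (starE_compact hKc h0) (starE_convex hK _) (starE_ge hKc hK hm h0 (hu 0))
      rcases starE_sub hK hε with h | h
      · refine ⟨Fin.cons 1 ε, ?_⟩
        rw [Fin.sum_univ_succ]
        simpa [add_comm] using h
      · refine ⟨Fin.cons (-1) ε, ?_⟩
        rw [Fin.sum_univ_succ]
        simpa [sub_eq_add_neg, add_comm] using h

end Pool.Agent.VB
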